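import Mathlib
import Pool.Agent.W880.UF2.Wild
import Pool.Agent.R703.FM.Tame

/-!
# Tame inertia is procyclic
-/

set_option autoImplicit false
set_option linter.unusedSectionVars false

namespace Pool.Agent.D0H32.EF

open NumberField Pool.Agent.W569.FM Pool.Agent.W258.FM

section general

variable {R : Type*} [CommRing R] [IsDedekindDomain R] {G : Type*} [Group G]
  [MulSemiringAction G R] [FaithfulSMul G R]

theorem wild_pow [Finite G] {P : Ideal R} (hP : P.IsMaximal) {l : ℕ}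
    (hlp : l.Prime) (hlP : (l : R) ∈ P) {w : G} (hwI : Iner P w)
    (hwt : ∀ y ∈ P, w • y - y ∈ P ^ 2) : ∃ a : ℕ, w ^ (l ^ a) = 1 := by
  obtain ⟨a, M, hM, hord⟩ := Nat.exists_eq_pow_mul_and_not_dvd
    (show orderOf w ≠ 0 from (orderOf_pos w).ne') l hlp.ne_one
  refine ⟨a, ?_⟩
  have hMP : (M : R) ∉ P := by
    intro h
    have hco : Nat.Coprime M l := ((Nat.Prime.coprime_iff_not_dvd hlp).2 hM).symm
    have hb := Nat.gcd_eq_gcd_ab M l
    rw [hco] at hb
    apply hP.ne_top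
    rw [Ideal.eq_top_iff_one]
    have e : (1 : R) = (M : R) * ((M.gcdA l : ℤ) : R) + (l : R) * ((M.gcdB l : ℤ) : R) := by
      have := congrArg (fun z : ℤ => (z : R)) hb
      push_cast at this
      exact this
    rw [e]
    exact Ideal.add_mem _ (Ideal.mul_mem_right _ _ h) (Ideal.mul_mem_right _ _ hlP)
  refine key hP hMP ?_ (hwI.pow _) (Pool.Agent.W880.UF2.pow_triv hwI hwt _)
  rw [← pow_mul, ← hord]
  exact pow_orderOf_eq_one w

/-- the tame character of the inertia group -/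
theorem exists_theta [Finite G] {P : Ideal R} (hP : P.IsMaximal) (h0 : P ≠ ⊥) {l : ℕ}
    (hlp : l.Prime) (hlP : (l : R) ∈ P) :
    ∃ θ : inerGroup (G := G) P →* (R ⧸ P), ∀ τ, θ τ = 1 → ∃ a : ℕ, (τ : G) ^ (l ^ a) = 1 := by
  obtain ⟨π, hπ, hπ2, hsp⟩ := exists_unif hP.isPrime h0
  have hex : ∀ τ : inerGroup (G := G) P, ∃ u : R, (τ : G) • π - u * π ∈ P ^ 2 := fun τ =>
    hsp _ (Iner.mem τ.2 π hπ)
  choose θ hθ using hex
  have huniq : ∀ (g : G) (u v : R), g • π - u * π ∈ P ^ 2 → g • π - v * π ∈ P ^ 2 →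
      Ideal.Quotient.mk P u = Ideal.Quotient.mk P v := by
    intro g u v hu hv
    rw [Ideal.Quotient.eq]
    refine cancel_unif hP hπ hπ2 ?_
    have e : (u - v) * π = (g • π - v * π) - (g • π - u * π) := by ring
    rw [e]
    exact Ideal.sub_mem _ hv hu
  let f : inerGroup (G := G) P →* R ⧸ P :=
    { toFun := fun τ => Ideal.Quotient.mk P (θ τ)
      map_one' := by
        rw [← map_one (Ideal.Quotient.mk P)]
        exact huniq 1 _ _ (by simpa using hθ 1) (by simp)
      map_mul' := by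
        intro a b
        rw [← map_mul]
        refine huniq ((a * b : inerGroup (G := G) P) : G) _ _ (hθ _) ?_
        have e : ((a * b : inerGroup (G := G) P) : G) • π - (θ a * θ b) * π =
            ((a : G) • ((b : G) • π) - θ a * ((b : G) • π)) +
              θ a * ((b : G) • π - θ b * π) := by
          rw [Subgroup.coe_mul, mul_smul]; ring
        rw [e]
        refine Ideal.add_mem _ ?_ (Ideal.mul_mem_left _ _ (hθ b))
        exact mult_all hπ hsp a.2 (hθ a) _ (Iner.mem b.2 π hπ) }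
  refine ⟨f, fun τ hτ => ?_⟩
  have h1 : θ τ - 1 ∈ P := by
    have h2 : Ideal.Quotient.mk P (θ τ) = Ideal.Quotient.mk P 1 := by
      rw [map_one]
      exact hτ
    exact (Ideal.Quotient.eq).1 h2
  have h2 : (τ : G) • π - 1 * π ∈ P ^ 2 := by
    have e : (τ : G) • π - 1 * π = ((τ : G) • π - θ τ * π) + (θ τ - 1) * π := by ring
    rw [e]
    refine Ideal.add_mem _ (hθ τ) ?_
    rw [pow_two]
    exact Ideal.mul_mem_mul h1 hπ
  refine wild_pow hP hlp hlP τ.2 fun y hy => ?_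
  have h3 := mult_all hπ hsp τ.2 h2 y hy
  rwa [one_mul] at h3

end general

theorem mem_zpowers_of_dvd {B : Type*} [Group B] {b x y : B} (hb : IsOfFinOrder b)
    (hx : x ∈ Subgroup.zpowers b) (hy : y ∈ Subgroup.zpowers b) (h : orderOf x ∣ orderOf y) :
    x ∈ Subgroup.zpowers y := by
  classical
  have hfin : Finite (Subgroup.zpowers b) := (finite_zpowers.2 hb).to_subtype
  have := Fintype.ofFinite (Subgroup.zpowers b)
  let x' : Subgroup.zpowers b := ⟨x, hx⟩
  let y' : Subgroup.zpowers b := ⟨y, hy⟩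
  have hox : orderOf x' = orderOf x := Subgroup.orderOf_mk x hx
  have hoy : orderOf y' = orderOf y := Subgroup.orderOf_mk y hy
  have hpos : 0 < orderOf y' := orderOf_pos y'
  have h1 := IsCyclic.card_pow_eq_one_le (α := Subgroup.zpowers b) hpos
  have h2 : ((Subgroup.zpowers y' : Subgroup (Subgroup.zpowers b)) : Set (Subgroup.zpowers b)).toFinset
      ⊆ Finset.univ.filter fun z : Subgroup.zpowers b => z ^ orderOf y' = 1 := by
    intro z hz
    rw [Set.mem_toFinset, SetLike.mem_coe] at hz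
    obtain ⟨k, rfl⟩ := hz
    rw [Finset.mem_filter]
    refine ⟨Finset.mem_univ _, ?_⟩
    change (y' ^ k) ^ orderOf y' = 1
    rw [← zpow_natCast, ← zpow_mul, mul_comm, zpow_mul, zpow_natCast, pow_orderOf_eq_one, one_zpow]
  have h3 : ((Subgroup.zpowers y' : Subgroup (Subgroup.zpowers b)) : Set (Subgroup.zpowers b)).toFinset.card
      = orderOf y' := by
    rw [Set.toFinset_card, ← Nat.card_eq_fintype_card]
    exact Nat.card_zpowers y'
  have h4 := Finset.eq_of_subset_of_card_le h2 (by rw [h3]; exact h1)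
  have h5 : x' ∈ ((Subgroup.zpowers y' : Subgroup (Subgroup.zpowers b)) :
      Set (Subgroup.zpowers b)).toFinset := by
    rw [h4, Finset.mem_filter]
    refine ⟨Finset.mem_univ _, ?_⟩
    rw [← orderOf_dvd_iff_pow_eq_one, hox, hoy]
    exact h
  rw [Set.mem_toFinset, SetLike.mem_coe] at h5
  obtain ⟨k, hk⟩ := h5
  exact ⟨k, congrArg Subtype.val hk⟩

theorem p_comparable {B : Type*} [Group B] {p : ℕ} (hp : p.Prime) {b x y : B} {a : ℕ}
    (hb : b ^ p ^ a = 1) (hx : x ∈ Subgroup.zpowers b) (hy : y ∈ Subgroup.zpowers b) :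
    x ∈ Subgroup.zpowers y ∨ y ∈ Subgroup.zpowers x := by
  have hbf : IsOfFinOrder b := isOfFinOrder_iff_pow_eq_one.2 ⟨p ^ a, pow_pos hp.pos a, hb⟩
  have hpow : ∀ z ∈ Subgroup.zpowers b, ∃ i, orderOf z = p ^ i := by
    rintro _ ⟨k, rfl⟩
    have h1 : (b ^ k) ^ p ^ a = 1 := by
      rw [← zpow_natCast, ← zpow_mul, mul_comm, zpow_mul, zpow_natCast, hb, one_zpow]
    obtain ⟨i, -, hi⟩ := (Nat.dvd_prime_pow hp).1 (orderOf_dvd_of_pow_eq_one h1)
    exact ⟨i, hi⟩
  obtain ⟨i, hi⟩ := hpow x hx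
  obtain ⟨j, hj⟩ := hpow y hy
  rcases le_total i j with hij | hij
  · left
    refine mem_zpowers_of_dvd hbf hx hy ?_
    rw [hi, hj]
    exact pow_dvd_pow p hij
  · right
    refine mem_zpowers_of_dvd hbf hy hx ?_
    rw [hi, hj]
    exact pow_dvd_pow p hij

/-- **Tame inertia is procyclic.** -/
theorem comparable (F : Type) [Field F] [NumberField F] {p l : ℕ} (hp : p.Prime) (hl : l.Prime)
    (hpl : p ≠ l) (H : Subgroup (GF F)) [hH : H.Normal] (hHo : IsOpen (H : Set (GF F)))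
    (E : Type) [Group E] (hE : IsPGroup p E) (f : H →* E)
    (hopen : IsOpen (f.ker : Set H)) (P : Ideal (OO F)) (hP : P.IsMaximal)
    (hlP : (l : OO F) ∈ P) (τ₁ τ₂ : H) (hτ₁ : InInertia P (τ₁ : GF F))
    (hτ₂ : InInertia P (τ₂ : GF F)) :
    f τ₁ ∈ Subgroup.zpowers (f τ₂) ∨ f τ₂ ∈ Subgroup.zpowers (f τ₁) := by
  classical
  -- the field
  have hW : IsOpen (((↑) : H → GF F) '' (f.ker : Set H)) :=
    hHo.isOpenMap_subtype_val _ hopen
  have hW1 : ((↑) : H → GF F) '' (f.ker : Set H) ∈ nhds (1 : GF F) :=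
    hW.mem_nhds ⟨1, f.ker.one_mem, rfl⟩
  obtain ⟨L, hfd, hnorm, hLW⟩ :=
    (krullTopology_mem_nhds_one_iff_of_normal F (AlgebraicClosure F) _).1 hW1
  have hgal : IsGalois F L := ⟨⟩
  have hnf : NumberField L := NumberField.of_module_finite F L
  set r : GF F →* Gal(L/F) := AlgEquiv.restrictNormalHom L with hr
  have hrk : r.ker = L.fixingSubgroup := by
    rw [hr, IntermediateField.restrictNormalHom_ker]
  set φ : 𝓞 L →+* OO F := algebraMap (𝓞 L) (OO F) with hφ
  have hcomm : ∀ (τ : GF F) (x : 𝓞 L), φ (r τ • x) = τ • φ x := by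
    intro τ x
    apply RingOfIntegers.ext
    exact AlgEquiv.restrictNormal_commutes τ L (x : L)
  set P0 : Ideal (𝓞 L) := P.comap φ with hP0
  have hP0p : P0.IsPrime := by
    have := hP.isPrime
    exact Ideal.comap_isPrime φ P
  have hlP0 : (l : 𝓞 L) ∈ P0 := by
    rw [hP0, Ideal.mem_comap, map_natCast]
    exact hlP
  have hP0b : P0 ≠ ⊥ := by
    intro h
    rw [h, Ideal.mem_bot] at hlP0
    exact hl.ne_zero (by exact_mod_cast hlP0)
  have hmax : P0.IsMaximal := hP0p.isMaximal hP0b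
  have hfaith : FaithfulSMul Gal(L/F) (𝓞 L) := by
    refine ⟨?_⟩
    intro a b hab
    ext x
    obtain ⟨y, z, hz, rfl⟩ := IsFractionRing.div_surjective (A := 𝓞 L) x
    have ey : a (algebraMap (𝓞 L) L y) = b (algebraMap (𝓞 L) L y) :=
      congrArg (algebraMap (𝓞 L) L) (hab y)
    have ez : a (algebraMap (𝓞 L) L z) = b (algebraMap (𝓞 L) L z) :=
      congrArg (algebraMap (𝓞 L) L) (hab z)
    rw [map_div₀, map_div₀, ey, ez]
  have hfG : Finite Gal(L/F) := by
    have : FiniteDimensional F L := hfd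
    infer_instance
  obtain ⟨θ, hθ⟩ := exists_theta (G := Gal(L/F)) hmax hP0b hl hlP0
  -- the subgroup of inertia elements in `H`
  let K₀ : Subgroup H := Subgroup.closure {τ₁, τ₂}
  have hK₀ : ∀ k ∈ K₀, r (k : GF F) ∈ inerGroup (G := Gal(L/F)) P0 := by
    intro k hk
    have h1 : K₀ ≤ ((inerGroup (G := Gal(L/F)) P0).comap r).comap H.subtype := by
      rw [Subgroup.closure_le]
      have h2 : ∀ τ : H, InInertia P (τ : GF F) →
          τ ∈ ((inerGroup (G := Gal(L/F)) P0).comap r).comap H.subtype := by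
        intro τ hτ x
        rw [hP0, Ideal.mem_comap, map_sub]
        have h3 := hcomm τ x
        change φ (r (τ : GF F) • x) - φ x ∈ P
        rw [h3]
        exact hτ (φ x)
      rintro τ (rfl | hτ)
      · exact h2 _ hτ₁
      · have : τ = τ₂ := hτ
        subst this
        exact h2 _ hτ₂
    exact h1 hk
  let θ₀ : K₀ →* (𝓞 L ⧸ P0)ˣ := (θ.comp
    { toFun := fun k : K₀ => (⟨r ((k : H) : GF F), hK₀ k k.2⟩ : inerGroup (G := Gal(L/F)) P0)
      map_one' := Subtype.ext (by simp)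
      map_mul' := fun a b => Subtype.ext (by simp) }).toHomUnits
  have hθ₀ : ∀ k : K₀, θ₀ k = 1 → f k = 1 := by
    intro k hk
    have h1 : θ ⟨r ((k : H) : GF F), hK₀ k k.2⟩ = 1 := congrArg Units.val hk
    obtain ⟨a, ha⟩ := hθ _ h1
    have ha' : r (((k : H) : GF F) ^ (l ^ a)) = 1 := by
      rw [map_pow]
      exact ha
    have h2 : ((k : H) : GF F) ^ (l ^ a) ∈ L.fixingSubgroup := by
      rw [← hrk]
      exact ha'
    obtain ⟨v, hv, hv2⟩ := hLW h2
    have h3 : v = (k : H) ^ (l ^ a) := Subtype.ext (by rw [hv2]; push_cast; rfl)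
    have h4 : f k ^ (l ^ a) = 1 := by
      rw [← map_pow, ← h3]
      exact hv
    obtain ⟨c, hc⟩ := hE (f k)
    have hd1 := orderOf_dvd_of_pow_eq_one h4
    have hd2 := orderOf_dvd_of_pow_eq_one hc
    have hcop : Nat.Coprime (l ^ a) (p ^ c) :=
      Nat.Coprime.pow _ _ ((Nat.coprime_primes hl hp).2 (Ne.symm hpl))
    have : orderOf (f k) ∣ 1 := by
      have := Nat.dvd_gcd hd1 hd2
      rwa [hcop.gcd_eq_one] at this
    exact orderOf_eq_one_iff.1 (Nat.dvd_one.1 this)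
  -- the image is cyclic
  have hfin : Finite θ₀.range := by
    have h1 : Finite (𝓞 L ⧸ P0) := Ideal.finiteQuotientOfFreeOfNeBot P0 hP0b
    infer_instance
  have hdom : IsDomain (𝓞 L ⧸ P0) := Ideal.Quotient.isDomain P0
  have hcyc : IsCyclic θ₀.range := inferInstance
  obtain ⟨⟨_, κ, rfl⟩, hgen⟩ := hcyc.exists_generator
  have hmem : ∀ τ : H, (hτ : τ ∈ K₀) → f τ ∈ Subgroup.zpowers (f κ) := by
    intro τ hτ
    obtain ⟨k, hk⟩ := hgen ⟨θ₀ ⟨τ, hτ⟩, ⟨τ, hτ⟩, rfl⟩
    have h1 : θ₀ κ ^ k = θ₀ ⟨τ, hτ⟩ := congrArg Subtype.val hk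
    have h2 : θ₀ (⟨τ, hτ⟩ * (κ ^ k)⁻¹) = 1 := by
      rw [map_mul, map_inv, map_zpow, h1, mul_inv_cancel]
    have h3 := hθ₀ _ h2
    refine ⟨k, ?_⟩
    change f κ ^ k = f τ
    rw [Subgroup.coe_mul, map_mul, Subgroup.coe_inv, map_inv, Subgroup.coe_zpow, map_zpow,
      mul_inv_eq_one] at h3
    exact h3.symm
  obtain ⟨a, ha⟩ := hE (f κ)
  exact p_comparable hp ha
    (hmem τ₁ (Subgroup.subset_closure (Set.mem_insert _ _)))
    (hmem τ₂ (Subgroup.subset_closure (Set.mem_insert_of_mem _ rfl)))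

end Pool.Agent.D0H32.EF
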