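import Mathlib

/-!
# Families of `ℓ`-adic representations: local factors, weights, characteristic polynomials
-/

set_option autoImplicit false

namespace Pool.Agent.D0H32.EF

open NumberField IsDedekindDomain Matrix Polynomial

/-- the absolute Galois group of the field `K`, with the Krull topology -/
abbrev AbsGal (K : Type) [Field K] : Type := Gal(AlgebraicClosure K/K)

section
variable {K : Type} [Field K]

/-- `g` belongs to the inertia group at the ideal `Q` of the ring of all algebraic integers. -/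
def Inertia (Q : Ideal (𝓞 (AlgebraicClosure K))) (g : AbsGal K) : Prop :=
  ∀ x : 𝓞 (AlgebraicClosure K), g • x - x ∈ Q

/-- `g` belongs to the decomposition group at `Q`, and acts as `x ↦ x ^ q` on the residue field. -/
def FrobeniusAt (Q : Ideal (𝓞 (AlgebraicClosure K))) (q : ℕ) (g : AbsGal K) : Prop :=
  ∀ x : 𝓞 (AlgebraicClosure K), g • x - x ^ q ∈ Q

/-- `Q` is a maximal ideal of the ring of all algebraic integers which lies above the finite
place `v` of `K`. -/
def LiesAbove [NumberField K] (v : HeightOneSpectrum (𝓞 K))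
    (Q : Ideal (𝓞 (AlgebraicClosure K))) : Prop :=
  Q.IsMaximal ∧ Q.comap (algebraMap (𝓞 K) (𝓞 (AlgebraicClosure K))) = v.asIdeal

/-- the matrix of `g` -/
noncomputable def mat {F : Type} [Field F] {n : ℕ} (ρ : AbsGal K →* GL (Fin n) F) (g : AbsGal K) :
    Matrix (Fin n) (Fin n) F :=
  (ρ g : GL (Fin n) F)

/-- Every invariant subspace has an invariant complement. -/
def IsSemisimple {F : Type} [Field F] {n : ℕ} (ρ : AbsGal K →* GL (Fin n) F) : Prop :=
  ∀ E : Submodule F (Fin n → F), (∀ g, ∀ x ∈ E, mat ρ g *ᵥ x ∈ E) →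
    ∃ E' : Submodule F (Fin n → F), (∀ g, ∀ x ∈ E', mat ρ g *ᵥ x ∈ E') ∧ IsCompl E E'

/-- the vectors which are fixed by the inertia group at `Q` -/
def invariants {F : Type} [Field F] {n : ℕ} (ρ : AbsGal K →* GL (Fin n) F)
    (Q : Ideal (𝓞 (AlgebraicClosure K))) : Submodule F (Fin n → F) where
  carrier := {x | ∀ g, Inertia Q g → mat ρ g *ᵥ x = x}
  add_mem' := by
    intro x y hx hy g hg
    rw [Matrix.mulVec_add, hx g hg, hy g hg]
  zero_mem' := by
    intro g _
    rw [Matrix.mulVec_zero]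
  smul_mem' := by
    intro c x hx g hg
    rw [Matrix.mulVec_smul, hx g hg]

/-- `f` is the polynomial `det (1 - g T)` of `g` on the invariants of the inertia group at `Q`: if
`A` is the matrix of `g` with respect to a basis `b` of the invariants then `f = det (1 - A T)`. -/
def IsLocalFactor {F : Type} [Field F] {n : ℕ} (ρ : AbsGal K →* GL (Fin n) F)
    (Q : Ideal (𝓞 (AlgebraicClosure K))) (g : AbsGal K) (f : F[X]) : Prop :=
  ∃ (m : ℕ) (b : Module.Basis (Fin m) F (invariants ρ Q)) (A : Matrix (Fin m) (Fin m) F),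
    (∀ j, mat ρ g *ᵥ (b j : Fin n → F) = ∑ i, A i j • (b i : Fin n → F)) ∧
    f = (1 - (X : F[X]) • A.map C).det

/-- **The weights at `v`**, for `ℓ` not below `v`: if `h` belongs to the decomposition group at `Q`
and acts on the residue field as the `a`-th power of the geometric Frobenius, `a ≥ 1`, if `H` is an
open normal subgroup and `e` an embedding of `ℚ_ℓ` in the complex numbers, then the eigenvalues `α`
of `h` on the vectors (columns) which are fixed by the inertia elements in `H` satisfy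
`|α| ^ 2 ≤ (N(v) ^ a) ^ w`, and on the linear forms (rows) which are fixed by them
`|α| ^ 2 ≥ (N(v) ^ a) ^ w`. -/
def WeightBounds [NumberField K] {n : ℕ}
    (V : ∀ (ℓ : ℕ) [Fact ℓ.Prime], AbsGal K →* GL (Fin n) ℚ_[ℓ]) (w : ℕ)
    (v : HeightOneSpectrum (𝓞 K)) : Prop :=
  ∀ (ℓ : ℕ) [Fact ℓ.Prime], (ℓ : 𝓞 K) ∉ v.asIdeal → ∀ Q, LiesAbove v Q → ∀ a : ℕ, 0 < a →
    ∀ h : AbsGal K, FrobeniusAt Q (Ideal.absNorm v.asIdeal ^ a) h⁻¹ →
    ∀ H : Subgroup (AbsGal K), H.Normal → IsOpen (H : Set (AbsGal K)) →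
    ∀ (e : ℚ_[ℓ] →+* ℂ) (α : ℂ) (x : Fin n → ℂ), x ≠ 0 →
    ((∀ τ ∈ H, Inertia Q τ → (mat (V ℓ) τ).map e *ᵥ x = x) → (mat (V ℓ) h).map e *ᵥ x = α • x →
      ‖α‖ ^ 2 ≤ ((Ideal.absNorm v.asIdeal : ℝ) ^ a) ^ w) ∧
    ((∀ τ ∈ H, Inertia Q τ → x ᵥ* (mat (V ℓ) τ).map e = x) → x ᵥ* (mat (V ℓ) h).map e = α • x →
      ((Ideal.absNorm v.asIdeal : ℝ) ^ a) ^ w ≤ ‖α‖ ^ 2)

/-- **Compatibility at `v`**: the characteristic polynomials of the elements `h` of the
decomposition groups at `v` which act on the residue field as a positive power of the geometric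
Frobenius have coefficients in `ℤ` and do not depend on `ℓ` (not below `v`). -/
def CompatibleAt [NumberField K] {n : ℕ}
    (V : ∀ (ℓ : ℕ) [Fact ℓ.Prime], AbsGal K →* GL (Fin n) ℚ_[ℓ])
    (v : HeightOneSpectrum (𝓞 K)) : Prop :=
  ∀ Q, LiesAbove v Q → ∀ a : ℕ, 0 < a →
    ∀ h : AbsGal K, FrobeniusAt Q (Ideal.absNorm v.asIdeal ^ a) h⁻¹ →
    ∃ f : ℤ[X], ∀ (ℓ : ℕ) [Fact ℓ.Prime], (ℓ : 𝓞 K) ∉ v.asIdeal →
      (mat (V ℓ) h).charpoly = f.map (Int.castRingHom ℚ_[ℓ])

end

end Pool.Agent.D0H32.EF
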