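import Mathlib

/-!
# Semisimple representations: Clifford's theorem and annihilators of invariants
-/

set_option autoImplicit false
set_option linter.unusedSectionVars false

namespace Pool.Agent.D0H32.EF

open Module

variable {F : Type*} [Field F] {G : Type*} [Group G] {Y : Type*} [AddCommGroup Y] [Module F Y]

/-- `E` is stable under `U`. -/
def Stab (U : Subgroup G) (r : G →* Module.End F Y) (E : Submodule F Y) : Prop :=
  ∀ g ∈ U, ∀ x ∈ E, r g x ∈ E

/-- `E` is a simple subrepresentation of `U`. -/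
def Smp (U : Subgroup G) (r : G →* Module.End F Y) (E : Submodule F Y) : Prop :=
  E ≠ ⊥ ∧ Stab U r E ∧ ∀ E' ≤ E, Stab U r E' → E' ≠ ⊥ → E' = E

/-- the socle -/
def soc (U : Subgroup G) (r : G →* Module.End F Y) : Submodule F Y := sSup {E | Smp U r E}

/-- every stable subspace has a stable complement -/
def SemiOn (U : Subgroup G) (r : G →* Module.End F Y) : Prop :=
  ∀ E : Submodule F Y, Stab U r E → ∃ E' : Submodule F Y, Stab U r E' ∧ IsCompl E E'

theorem Stab.inf {U : Subgroup G} {r : G →* Module.End F Y} {E E' : Submodule F Y}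
    (h : Stab U r E) (h' : Stab U r E') : Stab U r (E ⊓ E') :=
  fun g hg x hx => ⟨h g hg x hx.1, h' g hg x hx.2⟩

theorem Stab.sup {U : Subgroup G} {r : G →* Module.End F Y} {E E' : Submodule F Y}
    (h : Stab U r E) (h' : Stab U r E') : Stab U r (E ⊔ E') := by
  intro g hg x hx
  obtain ⟨a, ha, b, hb, rfl⟩ := Submodule.mem_sup.1 hx
  rw [map_add]
  exact Submodule.add_mem_sup (h g hg a ha) (h' g hg b hb)

theorem inv_apply (r : G →* Module.End F Y) (g : G) (x : Y) : r g⁻¹ (r g x) = x := by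
  have h := LinearMap.congr_fun (map_mul r g⁻¹ g) x
  rw [inv_mul_cancel, map_one] at h
  exact h.symm

theorem apply_inv (r : G →* Module.End F Y) (g : G) (x : Y) : r g (r g⁻¹ x) = x := by
  have h := LinearMap.congr_fun (map_mul r g g⁻¹) x
  rw [mul_inv_cancel, map_one] at h
  exact h.symm

theorem Smp.map {U : Subgroup G} [hU : U.Normal] {r : G →* Module.End F Y} {E : Submodule F Y}
    (h : Smp U r E) (g : G) : Smp U r (E.map (r g)) := by
  have hst : ∀ (g : G) (E : Submodule F Y), Stab U r E → Stab U r (E.map (r g)) := by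
    rintro g E hE u hu _ ⟨x, hx, rfl⟩
    have h1 : g⁻¹ * u * g ∈ U := by
      have := hU.conj_mem u hu g⁻¹
      rwa [inv_inv] at this
    refine ⟨r (g⁻¹ * u * g) x, hE _ h1 x hx, ?_⟩
    have h2 : r g (r (g⁻¹ * u * g) x) = r (g * (g⁻¹ * u * g)) x := by
      rw [map_mul r g]; rfl
    have h3 : r u (r g x) = r (u * g) x := by rw [map_mul]; rfl
    rw [h2, h3]
    congr 2
    group
  have hne : ∀ (g : G) (E : Submodule F Y), E ≠ ⊥ → E.map (r g) ≠ ⊥ := by
    intro g E hE h0
    apply hE
    rw [Submodule.eq_bot_iff]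
    intro x hx
    have h1 : r g x ∈ E.map (r g) := ⟨x, hx, rfl⟩
    rw [h0, Submodule.mem_bot] at h1
    rw [← inv_apply r g x, h1, map_zero]
  refine ⟨hne g E h.1, hst g E h.2.1, ?_⟩
  intro E' hE' hE's hE'0
  have h1 : E'.map (r g⁻¹) = E := by
    refine h.2.2 _ ?_ (hst g⁻¹ E' hE's) (hne g⁻¹ E' hE'0)
    rintro _ ⟨x, hx, rfl⟩
    obtain ⟨y, hy, rfl⟩ := hE' hx
    rw [inv_apply]
    exact hy
  rw [← h1]
  refine le_antisymm ?_ ?_
  · intro x hx
    exact ⟨r g⁻¹ x, ⟨x, hx, rfl⟩, apply_inv r g x⟩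
  · rintro _ ⟨_, ⟨x, hx, rfl⟩, rfl⟩
    rw [apply_inv]
    exact hx

theorem exists_smp [FiniteDimensional F Y] {U : Subgroup G} {r : G →* Module.End F Y}
    {T : Submodule F Y} (hT : Stab U r T) (hT0 : T ≠ ⊥) : ∃ S ≤ T, Smp U r S := by
  obtain ⟨S, ⟨hS0, hSs, hST⟩, hmin⟩ := (wellFounded_lt (α := Submodule F Y)).has_min
    {S | S ≠ ⊥ ∧ Stab U r S ∧ S ≤ T} ⟨T, hT0, hT, le_rfl⟩
  refine ⟨S, hST, hS0, hSs, fun E' hE' hE's hE'0 => ?_⟩
  by_contra hne
  exact hmin E' ⟨hE'0, hE's, hE'.trans hST⟩ (lt_of_le_of_ne hE' hne)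

/-- **Clifford's theorem.** -/
theorem clifford [FiniteDimensional F Y] {r : G →* Module.End F Y} (h : SemiOn ⊤ r)
    (U : Subgroup G) [hU : U.Normal] : soc U r = ⊤ := by
  have h1 : Stab ⊤ r (soc U r) := by
    intro g _
    have h2 : soc U r ≤ (soc U r).comap (r g) := by
      refine sSup_le fun S hS => ?_
      rw [← Submodule.map_le_iff_le_comap]
      exact le_sSup (Smp.map hS g)
    exact fun x hx => h2 hx
  obtain ⟨T, hT, hc⟩ := h _ h1
  have hTU : Stab U r T := fun g _ => hT g trivial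
  by_contra hne
  have hT0 : T ≠ ⊥ := by
    rintro rfl
    exact hne (by simpa using hc.sup_eq_top)
  obtain ⟨S, hST, hS⟩ := exists_smp hTU hT0
  have h2 : S ≤ soc U r := le_sSup hS
  exact hS.1 (le_bot_iff.1 (hc.disjoint h2 hST))

theorem semiOn_of_soc [FiniteDimensional F Y] {r : G →* Module.End F Y} {U : Subgroup G}
    (h : soc U r = ⊤) : SemiOn U r := by
  intro E hE
  obtain ⟨C, ⟨hCs, hCE⟩, hmax⟩ := (wellFounded_gt (α := Submodule F Y)).has_min
    {C | Stab U r C ∧ Disjoint C E} ⟨⊥, fun g _ x hx => by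
      rw [Submodule.mem_bot] at hx ⊢
      rw [hx, map_zero], disjoint_bot_left⟩
  refine ⟨C, hCs, hCE.symm, ?_⟩
  rw [codisjoint_iff, sup_comm]
  by_contra hne
  obtain ⟨S, hS, hSn⟩ : ∃ S, Smp U r S ∧ ¬ S ≤ C ⊔ E := by
    by_contra hcon
    push Not at hcon
    apply hne
    rw [eq_top_iff, ← h]
    exact sSup_le hcon
  have h1 : S ⊓ (C ⊔ E) = ⊥ := by
    by_contra h0
    have h2 := hS.2.2 _ inf_le_left (hS.2.1.inf (hCs.sup hE)) h0
    exact hSn (inf_eq_left.1 h2)
  have h2 : Disjoint (C ⊔ S) E := by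
    rw [Submodule.disjoint_def]
    intro x hx hxE
    obtain ⟨c, hc, s, hs, rfl⟩ := Submodule.mem_sup.1 hx
    have h3 : s ∈ S ⊓ (C ⊔ E) := by
      refine ⟨hs, ?_⟩
      have h4 : s = (-c) + (c + s) := by abel
      rw [h4]
      exact Submodule.add_mem_sup (C.neg_mem hc) hxE
    rw [h1, Submodule.mem_bot] at h3
    rw [h3, add_zero] at hxE ⊢
    exact (Submodule.disjoint_def.1 hCE) c hc hxE
  refine hmax (C ⊔ S) ⟨hCs.sup hS.2.1, h2⟩ ?_
  refine lt_of_le_of_ne le_sup_left fun heq => hSn ?_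
  have h3 : S ≤ C := by
    rw [heq]
    exact le_sup_right
  exact h3.trans le_sup_left

variable {ι : Type*} [Fintype ι] [DecidableEq ι]

/-- the representation on tuples -/
def tup (ι : Type*) (r : G →* Module.End F Y) : G →* Module.End F (ι → Y) where
  toFun g := (r g).compLeft ι
  map_one' := by
    ext x i
    simp
  map_mul' a b := by
    ext x i
    simp

theorem tup_apply (r : G →* Module.End F Y) (g : G) (x : ι → Y) (i : ι) :
    tup ι r g x i = r g (x i) := rfl

theorem soc_tup {r : G →* Module.End F Y} {U : Subgroup G} (h : soc U r = ⊤) :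
    soc U (tup ι r) = ⊤ := by
  have h1 : ∀ i : ι, soc U r ≤ (soc U (tup ι r)).comap (LinearMap.single F (fun _ => Y) i) := by
    intro i
    refine sSup_le fun S hS => ?_
    rw [← Submodule.map_le_iff_le_comap]
    refine le_sSup ?_
    have hsing : ∀ (g : G) (x : Y), tup ι r g (LinearMap.single F (fun _ => Y) i x) =
        LinearMap.single F (fun _ => Y) i (r g x) := by
      intro g x
      funext j
      rw [tup_apply]
      by_cases hj : j = i
      · subst hj
        simp
      · simp [hj]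
    have hinj : Function.Injective (LinearMap.single F (fun _ : ι => Y) i) := by
      intro x y hxy
      have h2 := congrFun hxy i
      simpa using h2
    refine ⟨?_, ?_, ?_⟩
    · intro h0
      apply hS.1
      rw [Submodule.eq_bot_iff]
      intro x hx
      have h2 : LinearMap.single F (fun _ : ι => Y) i x ∈ S.map (LinearMap.single F (fun _ => Y) i) :=
        ⟨x, hx, rfl⟩
      rw [h0, Submodule.mem_bot] at h2
      exact hinj (h2.trans (map_zero _).symm)
    · rintro g hg _ ⟨x, hx, rfl⟩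
      exact ⟨r g x, hS.2.1 g hg x hx, (hsing g x).symm⟩
    · intro E' hE' hE's hE'0
      have h2 : E'.comap (LinearMap.single F (fun _ => Y) i) = S := by
        refine hS.2.2 _ ?_ ?_ ?_
        · intro x hx
          obtain ⟨y, hy, hyx⟩ := hE' hx
          rwa [← hinj hyx]
        · intro g hg x hx
          rw [Submodule.mem_comap] at hx ⊢
          rw [← hsing]
          exact hE's g hg _ hx
        · intro h0
          apply hE'0
          rw [Submodule.eq_bot_iff]
          intro y hy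
          obtain ⟨x, hx, rfl⟩ := hE' hy
          have h3 : x ∈ E'.comap (LinearMap.single F (fun _ => Y) i) := hy
          rw [h0, Submodule.mem_bot] at h3
          rw [h3, map_zero]
      rw [← h2, Submodule.map_comap_eq]
      refine (inf_eq_right.2 ?_).symm
      exact hE'.trans LinearMap.map_le_range
  rw [eq_top_iff]
  intro x _
  have h2 : x = ∑ i, LinearMap.single F (fun _ => Y) i (x i) := by
    funext j
    rw [Finset.sum_apply, Finset.sum_eq_single j]
    · simp
    · intro b _ hb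
      simp [hb.symm]
    · simp
  rw [h2]
  refine Submodule.sum_mem _ fun i _ => ?_
  exact h1 i (h ▸ Submodule.mem_top)

/-- the action of the group algebra of `U` -/
noncomputable def ga (U : Subgroup G) (r : G →* Module.End F Y) :
    MonoidAlgebra F U →ₐ[F] Module.End F Y :=
  MonoidAlgebra.lift F _ _ (r.comp U.subtype)

theorem ga_single (U : Subgroup G) (r : G →* Module.End F Y) (u : U) :
    ga U r (MonoidAlgebra.of F U u) = r u := by
  rw [ga, MonoidAlgebra.lift_of]
  rfl

/-- **Annihilators of invariants.** -/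
theorem semi [FiniteDimensional F Y] {U : Subgroup G} {r : G →* Module.End F Y}
    (hsoc : soc U r = ⊤) (J : Set U) (t : MonoidAlgebra F U)
    (ht : ∀ y : Y, (∀ τ ∈ J, r (τ : U) y = y) → ga U r t y = 0) :
    ∃ l ∈ Submodule.span (MonoidAlgebra F U) {a | ∃ τ ∈ J, a = MonoidAlgebra.of F U τ - 1},
      ga U r (t - l) = 0 := by
  classical
  set I : Submodule (MonoidAlgebra F U) (MonoidAlgebra F U) :=
    Submodule.span (MonoidAlgebra F U) {a | ∃ τ ∈ J, a = MonoidAlgebra.of F U τ - 1} with hI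
  let b := Module.finBasis F Y
  let φ : MonoidAlgebra F U →ₗ[F] (Fin (finrank F Y) → Y) :=
    LinearMap.pi fun i => (LinearMap.applyₗ (b i)).comp (ga U r).toLinearMap
  have hφ : ∀ a i, φ a i = ga U r a (b i) := fun a i => rfl
  have hφu : ∀ (u : U) (a : MonoidAlgebra F U),
      tup (Fin (finrank F Y)) r u (φ a) = φ (MonoidAlgebra.of F U u * a) := by
    intro u a
    funext i
    rw [tup_apply, hφ, hφ, map_mul, ga_single]
    rfl
  have hIu : ∀ (c : MonoidAlgebra F U) (a : MonoidAlgebra F U), a ∈ I → c * a ∈ I :=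
    fun c a ha => I.smul_mem c ha
  set E : Submodule F (Fin (finrank F Y) → Y) := (I.restrictScalars F).map φ with hE
  obtain ⟨C, hCs, hC⟩ := semiOn_of_soc (soc_tup (ι := Fin (finrank F Y)) hsoc) E (by
    rintro g hg _ ⟨a, ha, rfl⟩
    exact ⟨MonoidAlgebra.of F U ⟨g, hg⟩ * a, hIu _ _ ha, (hφu ⟨g, hg⟩ a).symm⟩)
  have h1 : φ 1 ∈ E ⊔ C := by
    rw [hC.sup_eq_top]
    trivial
  obtain ⟨_, ⟨l, hl, rfl⟩, c, hc, hlc⟩ := Submodule.mem_sup.1 h1
  have hcJ : ∀ τ ∈ J, tup (Fin (finrank F Y)) r (τ : U) c = c := by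
    intro τ hτ
    have h2 : tup (Fin (finrank F Y)) r (τ : U) c - c ∈ C :=
      C.sub_mem (hCs _ τ.2 _ hc) hc
    have hc' : c = φ 1 - φ l := by rw [← hlc]; abel
    have h3 : tup (Fin (finrank F Y)) r (τ : U) c - c =
        φ ((MonoidAlgebra.of F U τ - 1) - (MonoidAlgebra.of F U τ - 1) * l) := by
      rw [hc', map_sub, hφu, hφu, mul_one, sub_mul, one_mul]
      simp only [map_sub]
      abel
    have h4 : tup (Fin (finrank F Y)) r (τ : U) c - c ∈ E := by
      rw [h3]
      refine ⟨_, ?_, rfl⟩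
      refine I.sub_mem (Submodule.subset_span ⟨τ, hτ, rfl⟩) (hIu _ _ hl)
    have h5 := (Submodule.disjoint_def.1 hC.disjoint) _ h4 h2
    exact sub_eq_zero.1 h5
  refine ⟨t * l, hIu _ _ hl, ?_⟩
  refine b.ext fun i => ?_
  have h6 : ga U r t (c i) = 0 := by
    apply ht
    intro τ hτ
    have := congrFun (hcJ τ hτ) i
    rwa [tup_apply] at this
  have h7 : b i = ga U r l (b i) + c i := by
    have := congrFun hlc i
    rw [Pi.add_apply, hφ, hφ, map_one] at this
    exact this.symm
  rw [map_sub, map_mul, LinearMap.sub_apply, Module.End.mul_apply, LinearMap.zero_apply]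
  have h8 : ga U r t (b i) = ga U r t (ga U r l (b i)) + ga U r t (c i) := by
    conv_lhs => rw [h7]
    rw [map_add]
  rw [h8, h6, add_zero, sub_self]

end Pool.Agent.D0H32.EF
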