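import Mathlib
import Pool.Agent.D0H32.EF.Semi
import Pool.Agent.R401.Tr3

/-!
# Transfer of eigenvalues on invariants
-/

set_option autoImplicit false
set_option linter.unusedSectionVars false

namespace Pool.Agent.D0H32.EF

open Module Matrix Polynomial

section lift

variable {F : Type} [Field F] (e : F →+* ℂ) {m : ℕ}

theorem exists_eigenvector {r : ℕ} {A : Matrix (Fin r) (Fin r) ℂ} {α : ℂ}
    (h : α ∈ spectrum ℂ A) : ∃ c : Fin r → ℂ, c ≠ 0 ∧ A *ᵥ c = α • c := by
  have h1 := Matrix.mem_spectrum_iff_isRoot_charpoly.1 h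
  rw [IsRoot.def, Matrix.eval_charpoly] at h1
  obtain ⟨c, hc, hc0⟩ := Matrix.exists_mulVec_eq_zero_iff.2 h1
  refine ⟨c, hc, ?_⟩
  rw [Matrix.sub_mulVec, sub_eq_zero] at hc0
  rw [← hc0]
  ext i
  simp [Matrix.scalar_apply, Matrix.mulVec_diagonal]

/-- the matrix with columns a basis of `E` -/
noncomputable def colMat {r : ℕ} {E : Submodule F (Fin m → F)} (b : Basis (Fin r) F E) :
    Matrix (Fin m) (Fin r) F := Matrix.of fun i j => (b j : Fin m → F) i

theorem colMat_mulVec {r : ℕ} {E : Submodule F (Fin m → F)} (b : Basis (Fin r) F E)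
    (c : Fin r → F) : colMat b *ᵥ c = ((∑ j, c j • b j : E) : Fin m → F) := by
  ext i
  rw [Matrix.mulVec, dotProduct]
  simp [colMat, mul_comm]

theorem exists_left_inv {r : ℕ} {E : Submodule F (Fin m → F)} (b : Basis (Fin r) F E) :
    ∃ L : Matrix (Fin r) (Fin m) F, L * colMat b = 1 := by
  have hinj : LinearMap.ker (Matrix.toLin' (colMat b)) = ⊥ := by
    rw [LinearMap.ker_eq_bot']
    intro c hc
    rw [Matrix.toLin'_apply, colMat_mulVec] at hc
    have h1 : (∑ j, c j • b j : E) = 0 := Subtype.ext hc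
    have h2 := Fintype.linearIndependent_iff.1 b.linearIndependent c h1
    exact funext h2
  obtain ⟨g, hg⟩ := LinearMap.exists_leftInverse_of_injective _ hinj
  refine ⟨LinearMap.toMatrix' g, ?_⟩
  have h1 := congrArg LinearMap.toMatrix' hg
  rw [LinearMap.toMatrix'_comp, LinearMap.toMatrix'_toLin', LinearMap.toMatrix'_id] at h1
  exact h1

/-- **Lifting of eigenvectors.** -/
theorem lift_eig {r : ℕ} {E : Submodule F (Fin m → F)} (b : Basis (Fin r) F E)
    {A : Matrix (Fin r) (Fin r) F} {M : Matrix (Fin m) (Fin m) F}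
    (hA : M * colMat b = colMat b * A) {α : ℂ} (hα : α ∈ spectrum ℂ (A.map e)) :
    ∃ y : Fin m → ℂ, y ≠ 0 ∧ M.map e *ᵥ y = α • y ∧
      ∀ B : Matrix (Fin m) (Fin m) F, (∀ x ∈ E, B *ᵥ x = x) → B.map e *ᵥ y = y := by
  obtain ⟨c, hc, hAc⟩ := exists_eigenvector hα
  obtain ⟨L, hL⟩ := exists_left_inv b
  have hmap : ∀ {p q s : ℕ} (X : Matrix (Fin p) (Fin q) F) (Z : Matrix (Fin q) (Fin s) F),
      (X * Z).map e = X.map e * Z.map e := fun X Z => Matrix.map_mul
  refine ⟨(colMat b).map e *ᵥ c, ?_, ?_, ?_⟩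
  · intro h0
    apply hc
    have h1 : (L.map e) *ᵥ ((colMat b).map e *ᵥ c) = c := by
      rw [Matrix.mulVec_mulVec, ← hmap, hL, Matrix.map_one e (map_zero e) (map_one e),
        Matrix.one_mulVec]
    rw [← h1, h0, Matrix.mulVec_zero]
  · rw [Matrix.mulVec_mulVec, ← hmap, hA, hmap, ← Matrix.mulVec_mulVec, hAc, Matrix.mulVec_smul]
  · intro B hB
    have h1 : B * colMat b = colMat b := by
      ext i j
      have h2 := congrFun (hB (b j) (b j).2) i
      rw [Matrix.mulVec, dotProduct] at h2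
      rw [Matrix.mul_apply]
      exact h2
    rw [Matrix.mulVec_mulVec, ← hmap, h1]

/-- the matrix of a restriction -/
theorem mul_colMat {r : ℕ} {E : Submodule F (Fin m → F)} (b : Basis (Fin r) F E)
    {M : Matrix (Fin m) (Fin m) F} (hM : E ≤ E.comap (Matrix.toLin' M)) :
    M * colMat b = colMat b * LinearMap.toMatrix b b ((Matrix.toLin' M).restrict hM) := by
  ext i j
  have h1 : (((Matrix.toLin' M).restrict hM (b j) : E) : Fin m → F) = M *ᵥ (b j : Fin m → F) := rfl
  have h2 := b.sum_repr ((Matrix.toLin' M).restrict hM (b j))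
  rw [Matrix.mul_apply, Matrix.mul_apply]
  have h3 : (M *ᵥ (b j : Fin m → F)) i = ∑ x, M i x * colMat b x j := rfl
  rw [← h3, ← h1, ← h2, Submodule.coe_sum, Finset.sum_apply]
  refine Finset.sum_congr rfl fun x _ => ?_
  rw [Submodule.coe_smul, Pi.smul_apply, smul_eq_mul, mul_comm, LinearMap.toMatrix_apply]
  rfl

end lift

section poly

variable {n : ℕ}

theorem aeval_mulVec {A : Matrix (Fin n) (Fin n) ℂ} {x : Fin n → ℂ} {β : ℂ}
    (h : A *ᵥ x = β • x) (p : ℂ[X]) : (aeval A p) *ᵥ x = (p.eval β) • x := by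
  have hpow : ∀ k : ℕ, A ^ k *ᵥ x = β ^ k • x := by
    intro k
    induction k with
    | zero => rw [pow_zero, pow_zero, Matrix.one_mulVec, one_smul]
    | succ k ih => rw [pow_succ, ← Matrix.mulVec_mulVec, h, Matrix.mulVec_smul, ih, smul_smul,
        pow_succ, mul_comm]
  induction p using Polynomial.induction_on' with
  | add p q hp hq => rw [map_add, Matrix.add_mulVec, hp, hq, eval_add, add_smul]
  | monomial k c =>
    rw [aeval_monomial, Algebra.algebraMap_eq_smul_one, smul_mul_assoc, one_mul,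
      Matrix.smul_mulVec, hpow, eval_monomial, smul_smul]

theorem pow_mulVec {A : Matrix (Fin n) (Fin n) ℂ} {x : Fin n → ℂ} {β : ℂ}
    (h : A *ᵥ x = β • x) (k : ℕ) : A ^ k *ᵥ x = β ^ k • x := by
  have h1 := aeval_mulVec h (X ^ k)
  rwa [map_pow, aeval_X, eval_pow, eval_X] at h1

theorem nilp_eig {A : Matrix (Fin n) (Fin n) ℂ} (hA : IsNilpotent A) {x : Fin n → ℂ}
    (hx : x ≠ 0) {β : ℂ} (h : A *ᵥ x = β • x) : β = 0 := by
  obtain ⟨k, hk⟩ := hA
  have h1 := pow_mulVec h k
  rw [hk, Matrix.zero_mulVec] at h1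
  rcases smul_eq_zero.1 h1.symm with h2 | h2
  · have hk0 : k ≠ 0 := by
      rintro rfl
      rw [pow_zero] at h2
      exact one_ne_zero h2
    exact (pow_eq_zero_iff hk0).1 h2
  · exact absurd h2 hx

end poly

/-- the action on column vectors -/
noncomputable def lin {F : Type} [Field F] {m : ℕ} {G : Type} [Group G]
    (W : G →* Matrix (Fin m) (Fin m) F) : G →* Module.End F (Fin m → F) :=
  ((Matrix.toLinAlgEquiv' (R := F) (n := Fin m)).toMonoidHom).comp W

theorem lin_apply {F : Type} [Field F] {m : ℕ} {G : Type} [Group G]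
    (W : G →* Matrix (Fin m) (Fin m) F) (g : G) (x : Fin m → F) : lin W g x = W g *ᵥ x := rfl

/-- the action of the group algebra of `U` by matrices -/
noncomputable def gm {F : Type} [Field F] {m : ℕ} {G : Type} [Group G] (U : Subgroup G)
    (W : G →* Matrix (Fin m) (Fin m) F) : MonoidAlgebra F U →ₐ[F] Matrix (Fin m) (Fin m) F :=
  MonoidAlgebra.lift F _ _ (W.comp U.subtype)

theorem gm_of {F : Type} [Field F] {m : ℕ} {G : Type} [Group G] (U : Subgroup G)
    (W : G →* Matrix (Fin m) (Fin m) F) (u : U) : gm U W (MonoidAlgebra.of F U u) = W u := by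
  rw [gm, MonoidAlgebra.lift_of]
  rfl

theorem ga_lin {F : Type} [Field F] {m : ℕ} {G : Type} [Group G] (U : Subgroup G)
    (W : G →* Matrix (Fin m) (Fin m) F) (a : MonoidAlgebra F U) :
    ga U (lin W) a = Matrix.toLin' (gm U W a) := by
  have h : ga U (lin W) = ((Matrix.toLinAlgEquiv' (R := F) (n := Fin m)).toAlgHom).comp (gm U W) := by
    refine MonoidAlgebra.algHom_ext (fun u => ?_) ?_
    · have h1 := ga_single (F := F) U (lin W) u
      have h2 := gm_of (F := F) U W u
      rw [MonoidAlgebra.of_apply] at h1 h2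
      rw [h1, AlgHom.comp_apply, h2]
      rfl
    · refine AlgHom.ext fun a => ?_
      exact (AlgHom.commutes _ a).trans (AlgHom.commutes _ a).symm
  rw [h]
  rfl

/-- **Transfer of eigenvalues on invariants.** -/
theorem transfer {F : Type} [Field F] [CharZero F] (e : F →+* ℂ) {G : Type} [Group G] {n m : ℕ}
    (V : G →* Matrix (Fin n) (Fin n) F) (W : G →* Matrix (Fin m) (Fin m) F) (U : Subgroup G)
    (hsoc : soc U (lin W) = ⊤) (c : G →* F) (D : F)
    (htr : ∀ u ∈ U, (V u).trace = (W u).trace + D * c u) {h : G} {M : ℕ} (hM : 0 < M)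
    (hh : h ^ M ∈ U) (J : Set G) (hJU : ∀ τ ∈ J, τ ∈ U) (hJh : ∀ τ ∈ J, h⁻¹ * τ * h ∈ J)
    {x : Fin n → ℂ} (hx : x ≠ 0) (hxJ : ∀ τ ∈ J, (V τ).map e *ᵥ x = x) {β : ℂ}
    (hxβ : (V h).map e *ᵥ x = β • x) :
    (D ≠ 0 ∧ β ^ M = e (c (h ^ M))) ∨ ∃ (α : ℂ) (y : Fin m → ℂ), α ^ M = β ^ M ∧ y ≠ 0 ∧
      (∀ τ ∈ J, (W τ).map e *ᵥ y = y) ∧ (W h).map e *ᵥ y = α • y := by
  classical
  -- the invariants of `W`
  let E : Submodule F (Fin m → F) :=
    { carrier := {y | ∀ τ ∈ J, W τ *ᵥ y = y}
      add_mem' := by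
        intro a b ha hb τ hτ
        rw [Matrix.mulVec_add, ha τ hτ, hb τ hτ]
      zero_mem' := by
        intro τ _
        rw [Matrix.mulVec_zero]
      smul_mem' := by
        intro a b hb τ hτ
        rw [Matrix.mulVec_smul, hb τ hτ] }
  have hEmem : ∀ y, y ∈ E ↔ ∀ τ ∈ J, W τ *ᵥ y = y := fun y => Iff.rfl
  have hEh : E ≤ E.comap (Matrix.toLin' (W h)) := by
    intro y hy
    rw [Submodule.mem_comap, Matrix.toLin'_apply, hEmem]
    intro τ hτ
    have h1 := (hEmem y).1 hy _ (hJh τ hτ)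
    have h2 : W τ * W h = W h * W (h⁻¹ * τ * h) := by
      rw [← map_mul, ← map_mul]
      congr 1
      group
    rw [Matrix.mulVec_mulVec, h2, ← Matrix.mulVec_mulVec, h1]
  set f : E →ₗ[F] E := (Matrix.toLin' (W h)).restrict hEh with hf
  have hfpow : ∀ (k : ℕ) (y : E), (((f ^ k) y : E) : Fin m → F) = W (h ^ k) *ᵥ (y : Fin m → F) := by
    intro k
    induction k with
    | zero => intro y; rw [pow_zero, pow_zero, map_one, Matrix.one_mulVec]; rfl
    | succ k ih =>
      intro y
      rw [pow_succ, pow_succ, map_mul, ← Matrix.mulVec_mulVec, Module.End.mul_apply, ih]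
      rfl
  set p : F[X] := (f ^ M).charpoly with hp
  let s : U := ⟨h ^ M, hh⟩
  set t : MonoidAlgebra F U := aeval (MonoidAlgebra.of F U s) p with ht
  have hgt : gm U W t = aeval (W (h ^ M)) p := by
    rw [ht, ← Polynomial.aeval_algHom_apply, gm_of]
  have hgtV : gm U V t = aeval (V (h ^ M)) p := by
    rw [ht, ← Polynomial.aeval_algHom_apply, gm_of]
  have haev : ∀ (q : F[X]) (y : E), (aeval (W (h ^ M)) q) *ᵥ (y : Fin m → F) =
      ((aeval (f ^ M) q y : E) : Fin m → F) := by
    intro q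
    induction q using Polynomial.induction_on' with
    | add q q' hq hq' =>
      intro y
      rw [map_add, Matrix.add_mulVec, hq, hq', map_add]
      rfl
    | monomial k a =>
      intro y
      rw [aeval_monomial, aeval_monomial, Algebra.algebraMap_eq_smul_one,
        Algebra.algebraMap_eq_smul_one, smul_mul_assoc, one_mul, smul_mul_assoc, one_mul,
        Matrix.smul_mulVec, ← map_pow, ← pow_mul, ← pow_mul, ← hfpow]
      rfl
  obtain ⟨l, hl, hl0⟩ := semi hsoc {τ : U | (τ : G) ∈ J} t (by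
    intro y hy
    have hyE : y ∈ E := by
      rw [hEmem]
      intro τ hτ
      have h1 := hy ⟨τ, hJU τ hτ⟩ hτ
      rwa [lin_apply] at h1
    rw [ga_lin, Matrix.toLin'_apply, hgt]
    have h1 := haev p ⟨y, hyE⟩
    rw [hp, LinearMap.aeval_self_charpoly] at h1
    exact h1)
  have hl0' : gm U W (t - l) = 0 := by
    rw [ga_lin] at hl0
    exact (LinearEquiv.map_eq_zero_iff Matrix.toLin').1 hl0
  -- the scalar character on the group algebra
  let ĉ : MonoidAlgebra F U →ₐ[F] F := MonoidAlgebra.lift F _ _ (c.comp U.subtype)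
  have hĉ : ∀ u : U, ĉ (MonoidAlgebra.of F U u) = c u := by
    intro u
    change MonoidAlgebra.lift F _ _ (c.comp U.subtype) (MonoidAlgebra.of F U u) = _
    rw [MonoidAlgebra.lift_of]
    rfl
  have htra : ∀ a : MonoidAlgebra F U,
      (gm U V a).trace = (gm U W a).trace + D * ĉ a := by
    intro a
    have h1 : (Matrix.traceLinearMap (Fin n) F F).comp (gm U V).toLinearMap =
        (Matrix.traceLinearMap (Fin m) F F).comp (gm U W).toLinearMap + D • ĉ.toLinearMap := by
      apply MonoidAlgebra.lhom_ext'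
      intro u
      apply LinearMap.ext_ring
      have h2 := gm_of (F := F) U V u
      have h3 := gm_of (F := F) U W u
      have h4 := hĉ u
      rw [MonoidAlgebra.of_apply] at h2 h3 h4
      have h5 := htr u u.2
      simp only [LinearMap.comp_apply, LinearMap.add_apply, LinearMap.smul_apply,
        MonoidAlgebra.lsingle_apply, AlgHom.toLinearMap_apply, Matrix.traceLinearMap_apply,
        smul_eq_mul]
      rw [h2, h3, h4]
      exact h5
    have h2 := LinearMap.congr_fun h1 a
    exact h2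
  -- the factor which kills the character
  let y₀ : MonoidAlgebra F U := if D = 0 then 1 else
    MonoidAlgebra.of F U s - algebraMap F _ (c (h ^ M))
  have hy₀ : D * ĉ y₀ = 0 := by
    by_cases hD : D = 0
    · rw [hD, zero_mul]
    · simp only [y₀, if_neg hD]
      rw [map_sub, hĉ, AlgHom.commutes]
      change D * (c (h ^ M) - c (h ^ M)) = 0
      rw [sub_self, mul_zero]
  set z : MonoidAlgebra F U := y₀ * (t - l) with hz
  have hznil : IsNilpotent (gm U V z) := by
    have h2 := Pool.Agent.R401.Burn.isNilpotent_of_trace_pow (k := F) (V := Fin n → F)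
      (fun m h1 _ => Nat.cast_ne_zero.2 h1.ne') (Matrix.toLin' (gm U V z)) (by
        intro r
        rw [← Matrix.toLin'_pow, Matrix.trace_toLin'_eq, ← map_pow, htra, map_pow, hz, map_mul,
          hl0', mul_zero, zero_pow (Nat.succ_ne_zero r), Matrix.trace_zero, map_pow, map_mul,
          pow_succ]
        linear_combination (ĉ y₀ * ĉ (t - l)) ^ r * ĉ (t - l) * hy₀)
    obtain ⟨k, hk⟩ := h2
    refine ⟨k, ?_⟩
    rw [← Matrix.toLin'_pow] at hk
    exact (LinearEquiv.map_eq_zero_iff Matrix.toLin').1 hk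
  -- the action on the eigenvector
  let me : Matrix (Fin n) (Fin n) F →+* Matrix (Fin n) (Fin n) ℂ := e.mapMatrix
  have hme : ∀ A, me A = A.map e := fun A => rfl
  have hsx : (V (h ^ M)).map e *ᵥ x = β ^ M • x := by
    rw [map_pow, ← hme, map_pow, hme]
    exact pow_mulVec hxβ M
  have htx : (gm U V t).map e *ᵥ x = ((p.map e).eval (β ^ M)) • x := by
    rw [hgtV]
    have h1 : (aeval (V (h ^ M)) p).map e = aeval ((V (h ^ M)).map e) (p.map e) := by
      rw [← hme, ← hme, aeval_def, aeval_def, Polynomial.eval₂_map, Polynomial.hom_eval₂]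
      congr 1
      ext a i j
      simp only [RingHom.comp_apply, hme, Matrix.map_apply, Matrix.algebraMap_matrix_apply]
      split_ifs
      · simp
      · simp
    rw [h1]
    exact aeval_mulVec hsx _
  have hlx : (gm U V l).map e *ᵥ x = 0 := by
    have h1 : ∀ a ∈ Submodule.span (MonoidAlgebra F U)
        {a | ∃ τ ∈ {τ : U | (τ : G) ∈ J}, a = MonoidAlgebra.of F U τ - 1},
        (gm U V a).map e *ᵥ x = 0 := by
      intro a ha
      induction ha using Submodule.span_induction with
      | mem a ha =>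
        obtain ⟨τ, hτ, rfl⟩ := ha
        rw [map_sub, gm_of, map_one, ← hme, map_sub, map_one, hme, Matrix.sub_mulVec,
          Matrix.one_mulVec, hxJ _ hτ, sub_self]
      | zero => rw [map_zero, ← hme, map_zero, Matrix.zero_mulVec]
      | add a b _ _ ha hb =>
        rw [map_add, ← hme, map_add, hme, hme, Matrix.add_mulVec, ha, hb, add_zero]
      | smul a b _ hb =>
        rw [smul_eq_mul, map_mul, ← hme, map_mul, hme, hme, ← Matrix.mulVec_mulVec, hb,
          Matrix.mulVec_zero]
    exact h1 l hl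
  have hyx : ∃ γ : ℂ, (gm U V y₀).map e *ᵥ x = γ • x ∧
      (γ = 0 → D ≠ 0 ∧ β ^ M = e (c (h ^ M))) := by
    by_cases hD : D = 0
    · refine ⟨1, ?_, fun h => absurd h one_ne_zero⟩
      simp only [y₀, if_pos hD]
      rw [map_one, ← hme, map_one, Matrix.one_mulVec, one_smul]
    · refine ⟨β ^ M - e (c (h ^ M)), ?_, fun h => ⟨hD, sub_eq_zero.1 h⟩⟩
      simp only [y₀, if_neg hD]
      rw [map_sub, gm_of, AlgHom.commutes, ← hme, map_sub, hme, hme, Matrix.sub_mulVec]
      have h1 : (algebraMap F (Matrix (Fin n) (Fin n) F) (c (h ^ M))).map e =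
          e (c (h ^ M)) • (1 : Matrix (Fin n) (Fin n) ℂ) := by
        ext i j
        rw [Matrix.map_apply, Matrix.algebraMap_matrix_apply, Matrix.smul_apply, Matrix.one_apply]
        split_ifs
        · simp
        · simp
      rw [h1, Matrix.smul_mulVec, Matrix.one_mulVec, sub_smul]
      congr 1
  obtain ⟨γ, hγx, hγ⟩ := hyx
  have hzx : (gm U V z).map e *ᵥ x = (γ * (p.map e).eval (β ^ M)) • x := by
    have h5 : (gm U V (t - l)).map e = (gm U V t).map e - (gm U V l).map e := by
      rw [map_sub]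
      exact map_sub me _ _
    rw [hz, map_mul, ← hme, map_mul, hme, hme, ← Matrix.mulVec_mulVec, h5, Matrix.sub_mulVec,
      htx, hlx, sub_zero, Matrix.mulVec_smul, hγx, smul_smul, mul_comm]
  have hzn : IsNilpotent ((gm U V z).map e) := by
    rw [← hme]
    exact hznil.map me
  rcases mul_eq_zero.1 (nilp_eig hzn hx hzx) with h1 | h1
  · exact Or.inl (hγ h1)
  · right
    -- the eigenvector of `W`
    let b := Module.finBasis F E
    set A := LinearMap.toMatrix b b f with hA
    have h2 : p.map e = ((A.map e) ^ M).charpoly := by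
      rw [hp, ← LinearMap.charpoly_toMatrix (f ^ M) b, ← LinearMap.toMatrix_pow, ← Matrix.charpoly_map]
      congr 1
      exact map_pow e.mapMatrix A M
    have h3 : β ^ M ∈ spectrum ℂ ((A.map e) ^ M) := by
      rw [Matrix.mem_spectrum_iff_isRoot_charpoly, ← h2]
      exact h1
    rw [spectrum.map_pow_of_pos _ hM] at h3
    obtain ⟨α, hα, hαβ⟩ := h3
    obtain ⟨y, hy, hyα, hyB⟩ := lift_eig e b (mul_colMat b hEh) hα
    refine ⟨α, y, hαβ, hy, ?_, hyα⟩
    intro τ hτ
    exact hyB _ fun y' hy' => (hEmem y').1 hy' τ hτ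

end Pool.Agent.D0H32.EF
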