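import Mathlib
import Pool.Agent.D0H32.EF.Trans

/-!
# The dual representation
-/

set_option autoImplicit false
set_option linter.unusedSectionVars false

namespace Pool.Agent.D0H32.EF

open Module Matrix

variable {F : Type} [Field F] {m : ℕ} {G : Type} [Group G]

/-- the dual representation -/
def dl (W : G →* Matrix (Fin m) (Fin m) F) : G →* Matrix (Fin m) (Fin m) F where
  toFun g := (W g⁻¹)ᵀ
  map_one' := by rw [inv_one, map_one, Matrix.transpose_one]
  map_mul' a b := by rw [_root_.mul_inv_rev, map_mul, Matrix.transpose_mul]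

theorem dl_apply (W : G →* Matrix (Fin m) (Fin m) F) (g : G) : dl W g = (W g⁻¹)ᵀ := rfl

/-- the orthogonal complement -/
noncomputable def perp (E : Submodule F (Fin m → F)) : Submodule F (Fin m → F) where
  carrier := {y | ∀ x ∈ E, x ⬝ᵥ y = 0}
  add_mem' := by
    intro a b ha hb x hx
    rw [dotProduct_add, ha x hx, hb x hx, add_zero]
  zero_mem' := by
    intro x _
    rw [dotProduct_zero]
  smul_mem' := by
    intro c a ha x hx
    rw [dotProduct_smul, ha x hx, smul_zero]

theorem mem_perp {E : Submodule F (Fin m → F)} {y : Fin m → F} :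
    y ∈ perp E ↔ ∀ x ∈ E, x ⬝ᵥ y = 0 := Iff.rfl

theorem perp_perp (E : Submodule F (Fin m → F)) : perp (perp E) = E := by
  let B : LinearMap.BilinForm F (Fin m → F) := Matrix.toBilin' (1 : Matrix (Fin m) (Fin m) F)
  have hB : ∀ x y, B x y = x ⬝ᵥ y := by
    intro x y
    change Matrix.toBilin' 1 x y = _
    rw [Matrix.toBilin'_apply', Matrix.one_mulVec]
  have hp : ∀ E : Submodule F (Fin m → F), perp E = B.orthogonal E := by
    intro E
    ext y
    rw [mem_perp, LinearMap.BilinForm.mem_orthogonal_iff]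
    refine forall₂_congr fun x _ => ?_
    rw [hB]
  have hnd : B.Nondegenerate := by
    rw [Matrix.nondegenerate_toBilin'_iff]
    exact Matrix.nondegenerate_of_det_ne_zero (by rw [Matrix.det_one]; exact one_ne_zero)
  have hrefl : B.IsRefl := by
    intro x y h
    rw [hB] at h ⊢
    rw [dotProduct_comm]
    exact h
  rw [hp, hp]
  exact LinearMap.BilinForm.orthogonal_orthogonal hnd hrefl E

theorem perp_anti {E E' : Submodule F (Fin m → F)} (h : E ≤ E') : perp E' ≤ perp E :=
  fun _ hy x hx => hy x (h hx)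

theorem isCompl_perp {E E' : Submodule F (Fin m → F)} (h : IsCompl E E') :
    IsCompl (perp E) (perp E') := by
  have h1 : ∀ A B : Submodule F (Fin m → F), perp (A ⊔ B) = perp A ⊓ perp B := by
    intro A B
    refine le_antisymm (le_inf (perp_anti le_sup_left) (perp_anti le_sup_right)) ?_
    intro y hy x hx
    obtain ⟨a, ha, b, hb, rfl⟩ := Submodule.mem_sup.1 hx
    rw [add_dotProduct, hy.1 a ha, hy.2 b hb, add_zero]
  have h2 : perp (⊤ : Submodule F (Fin m → F)) = ⊥ := by
    rw [Submodule.eq_bot_iff]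
    intro y hy
    ext i
    have h3 := hy (Pi.single i 1) trivial
    rwa [single_one_dotProduct] at h3
  have h3 : perp (⊥ : Submodule F (Fin m → F)) = ⊤ := by
    rw [← h2, perp_perp]
  refine IsCompl.of_eq ?_ ?_
  · rw [← h1, h.sup_eq_top, h2]
  · have h4 : perp E ⊔ perp E' = perp (perp (perp E ⊔ perp E')) := (perp_perp _).symm
    rw [h4, h1, perp_perp, perp_perp, h.inf_eq_bot, h3]

theorem semiOn_dl {W : G →* Matrix (Fin m) (Fin m) F} (h : SemiOn ⊤ (lin W)) :
    SemiOn ⊤ (lin (dl W)) := by
  have key : ∀ (X : G →* Matrix (Fin m) (Fin m) F) (E : Submodule F (Fin m → F)),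
      Stab ⊤ (lin (dl X)) E → Stab ⊤ (lin X) (perp E) := by
    intro X E hE g _ y hy x hx
    rw [lin_apply]
    have h1 := hE g⁻¹ trivial x hx
    rw [lin_apply, dl_apply, inv_inv] at h1
    have h2 := hy _ h1
    rw [Matrix.dotProduct_mulVec, ← Matrix.mulVec_transpose]
    exact h2
  have hdd : dl (dl W) = W := by
    ext g : 1
    rw [dl_apply, dl_apply, inv_inv, Matrix.transpose_transpose]
  intro E hE
  obtain ⟨C, hC, hc⟩ := h (perp E) (key W E hE)
  refine ⟨perp C, key (dl W) C (by rwa [hdd]), ?_⟩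
  have h1 := isCompl_perp hc
  rwa [perp_perp] at h1

end Pool.Agent.D0H32.EF
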