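import Mathlib
import Pool.Agent.Y126.SH.Lin

/-!
# The eigenvalues on the kernel of the monodromy operator
-/

set_option autoImplicit false
set_option linter.unusedSectionVars false

namespace Pool.Agent.D0H32.EF

open Matrix Polynomial Module

section smul

variable {m : Type} [Fintype m] [DecidableEq m]

theorem charpoly_smul_comp {k : Type} [CommRing k] (A : Matrix m m k) (c : k) :
    (c • A).charpoly.comp (C c * X) = C c ^ Fintype.card m * A.charpoly := by
  have h1 : (c • A).charpoly.comp (C c * X) =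
      (Polynomial.compRingHom (C c * X)) (c • A).charpoly := rfl
  rw [h1, Matrix.charpoly, RingHom.map_det, Matrix.charpoly, ← Matrix.det_smul]
  congr 1
  ext i j : 2
  rw [RingHom.mapMatrix_apply, Matrix.map_apply, Matrix.smul_apply, smul_eq_mul,
    Matrix.charmatrix_apply, Matrix.charmatrix_apply, Polynomial.coe_compRingHom_apply,
    Matrix.smul_apply, smul_eq_mul, sub_comp, C_comp, mul_sub]
  simp only [Matrix.diagonal_apply]
  split_ifs
  · rw [X_comp, C_mul]
  · rw [zero_comp, C_mul, mul_zero]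

theorem roots_smul (A : Matrix m m ℂ) {c : ℂ} (hc : c ≠ 0) :
    (c • A).charpoly.roots = A.charpoly.roots.map (c * ·) := by
  have h1 := charpoly_smul_comp A c
  set Γ := (c • A).charpoly.roots with hΓ
  have hsplit : (c • A).charpoly = (Γ.map fun z => X - C z).prod :=
    (IsAlgClosed.splits (c • A).charpoly).eq_prod_roots_of_monic (c • A).charpoly_monic
  have h2 : (c • A).charpoly.comp (C c * X) =
      C (c ^ Multiset.card Γ) * (Γ.map fun z => X - C (c⁻¹ * z)).prod := by
    rw [hsplit, Polynomial.multiset_prod_comp, Multiset.map_map, C_pow]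
    have h3 : (fun z : ℂ => X - C z) = fun z => X - C z := rfl
    have h4 : ∀ s : Multiset ℂ, (s.map ((fun p : ℂ[X] => p.comp (C c * X)) ∘ fun z => X - C z)).prod =
        C c ^ Multiset.card s * (s.map fun z => X - C (c⁻¹ * z)).prod := by
      intro s
      induction s using Multiset.induction_on with
      | empty => simp
      | cons z s ih =>
        rw [Multiset.map_cons, Multiset.prod_cons, ih, Multiset.map_cons, Multiset.prod_cons,
          Multiset.card_cons, pow_succ, Function.comp_apply, sub_comp, X_comp, C_comp]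
        have h5 : C c * X - C z = C c * (X - C (c⁻¹ * z)) := by
          rw [mul_sub, ← C_mul, ← mul_assoc, mul_inv_cancel₀ hc, one_mul]
        rw [h5]
        ring
    exact h4 Γ
  have h3 : ((Γ.map fun z => X - C (c⁻¹ * z)).prod).roots = Γ.map (c⁻¹ * ·) := by
    have h4 := Polynomial.roots_multiset_prod_X_sub_C (Γ.map (c⁻¹ * ·))
    rw [Multiset.map_map] at h4
    exact h4
  have h4 := congrArg Polynomial.roots (h2.symm.trans h1)
  rw [roots_C_mul _ (pow_ne_zero _ hc), h3, ← C_pow, roots_C_mul _ (pow_ne_zero _ hc)] at h4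
  rw [← h4, Multiset.map_map]
  have h5 : ((fun x => c * x) ∘ fun x => c⁻¹ * x) = fun x : ℂ => x := by
    funext x
    rw [Function.comp_apply, ← mul_assoc, mul_inv_cancel₀ hc, one_mul]
  rw [h5, Multiset.map_id']

end smul

variable {F : Type} [Field F] (e : F →+* ℂ)

/-- the complex eigenvalues -/
noncomputable def rts {V : Type*} [AddCommGroup V] [Module F V] [FiniteDimensional F V]
    (f : V →ₗ[F] V) : Multiset ℂ := (f.charpoly.map e).roots

variable {V : Type*} [AddCommGroup V] [Module F V] [FiniteDimensional F V]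

theorem rts_eq {ι : Type} [Fintype ι] [DecidableEq ι] (b : Basis ι F V) (f : V →ₗ[F] V) :
    rts e f = ((LinearMap.toMatrix b b f).map e).charpoly.roots := by
  rw [rts, ← LinearMap.charpoly_toMatrix f b, Matrix.charpoly_map]

theorem rts_smul (f : V →ₗ[F] V) {c : F} (hc : c ≠ 0) :
    rts e (c • f) = (rts e f).map (e c * ·) := by
  classical
  let b := Module.finBasis F V
  rw [rts_eq e b, rts_eq e b, ← roots_smul _ ((map_ne_zero e).2 hc)]
  congr 2
  rw [map_smul]
  ext i j
  simp

theorem rts_sum (f : V →ₗ[F] V) : e (LinearMap.trace F V f) = (rts e f).sum := by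
  classical
  let b := Module.finBasis F V
  rw [rts_eq e b, ← Matrix.trace_eq_sum_roots_charpoly, LinearMap.trace_eq_matrix_trace F b,
    Matrix.trace, Matrix.trace, map_sum]
  rfl

theorem rts_mul {W : Submodule F V} {f : V →ₗ[F] V} (hf : W ≤ W.comap f) :
    rts e f = rts e (f.restrict hf) + rts e (W.mapQ W f hf) := by
  rw [rts, Pool.Agent.Y126.SH.charpoly_eq_mul' hf, Polynomial.map_mul, roots_mul]
  · rfl
  · exact mul_ne_zero ((LinearMap.charpoly_monic _).map e).ne_zero
      ((LinearMap.charpoly_monic _).map e).ne_zero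

/-- the sum which gives the trace -/
noncomputable def SS (Q : ℕ) (R : ℝ) (v : Multiset ℂ) : ℂ :=
  (v.filter fun β => ‖β‖ ^ 2 ≤ R).sum - Q * (v.filter fun β => ‖(Q : ℂ) * β‖ ^ 2 ≤ R).sum

/-- **The trace on the kernel of the monodromy operator.** -/
theorem kappa {f L : V →ₗ[F] V} {Q : ℕ} (hQ : 2 ≤ Q)
    (hrel : ∀ x, L (f x) = (Q : F) • f (L x))
    (hker : LinearMap.ker L ≤ (LinearMap.ker L).comap f)
    (him : LinearMap.range L ≤ (LinearMap.range L).comap f) {R : ℝ} (hR : 0 < R)
    (h1 : ∀ β ∈ rts e (f.restrict hker), ‖β‖ ^ 2 ≤ R)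
    (h2 : ∀ β ∈ rts e ((LinearMap.range L).mapQ _ f him), R ≤ ‖β‖ ^ 2) :
    e (LinearMap.trace F _ (f.restrict hker)) = SS Q R (rts e f) := by
  classical
  have hQe : e (Q : F) = (Q : ℂ) := map_natCast e Q
  have hQF : (Q : F) ≠ 0 := by
    intro h
    rw [h, map_zero] at hQe
    have : (Q : ℂ) ≠ 0 := Nat.cast_ne_zero.2 (by omega)
    exact this hQe.symm
  set κ := rts e (f.restrict hker) with hκ
  set ι := rts e (f.restrict him) with hι
  set γ := rts e ((LinearMap.range L).mapQ _ f him) with hγ
  have h3 : rts e ((LinearMap.ker L).mapQ _ f hker) = ι.map ((Q : ℂ) * ·) := by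
    rw [hι, ← hQe, ← rts_smul e _ hQF]
    unfold rts
    congr 2
    rw [← LinearEquiv.charpoly_conj L.quotKerEquivRange]
    congr 1
    refine LinearMap.ext fun y => ?_
    obtain ⟨y, x, rfl⟩ := y
    rw [LinearEquiv.conj_apply_apply]
    have h4 : L.quotKerEquivRange.symm ⟨L x, ⟨x, rfl⟩⟩ = (LinearMap.ker L).mkQ x := by
      rw [LinearEquiv.symm_apply_eq]
      exact Subtype.ext (L.quotKerEquivRange_apply_mk x).symm
    rw [h4, Submodule.mkQ_apply, Submodule.mapQ_apply]
    apply Subtype.ext
    rw [LinearMap.quotKerEquivRange_apply_mk, hrel]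
    rfl
  have hv1 : rts e f = κ + ι.map ((Q : ℂ) * ·) := by rw [rts_mul e hker, h3]
  have hv2 : rts e f = ι + γ := rts_mul e him
  have h4 : (κ.filter fun β => ‖β‖ ^ 2 ≤ R) = κ := Multiset.filter_eq_self.2 h1
  have h5 : (γ.filter fun β => ‖(Q : ℂ) * β‖ ^ 2 ≤ R) = 0 := by
    rw [Multiset.filter_eq_nil]
    intro β hβ hle
    have h6 := h2 β hβ
    rw [norm_mul, mul_pow, Complex.norm_natCast] at hle
    have hQ2 : (2 : ℝ) ≤ Q := by exact_mod_cast hQ
    have : (4 : ℝ) ≤ (Q : ℝ) ^ 2 := by nlinarith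
    nlinarith
  rw [rts_sum, ← hκ, SS]
  conv_rhs =>
    congr
    · rw [hv1]
    · rw [hv2]
  rw [Multiset.filter_add, Multiset.filter_add, h4, h5, add_zero, Multiset.sum_add,
    Multiset.filter_map, Multiset.sum_map_mul_left, Multiset.map_id']
  simp only [Function.comp_def]
  ring

end Pool.Agent.D0H32.EF
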