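import Mathlib
import Pool.Agent.Helper794_NC.Log

/-!
# The logarithm of a unipotent matrix
-/

set_option autoImplicit false

namespace Pool.Agent.D0H32.EF

open Matrix Polynomial Pool.Agent.Helper794NC

variable {k : Type} [Field k] [CharZero k] {n : ℕ}

theorem pow_eq_sum {T : Matrix (Fin n) (Fin n) k} {N : ℕ} (hN : (T - 1) ^ N = 0) (t : ℕ) :
    T ^ t = ∑ m ∈ Finset.range N, (t.choose m : k) • (T - 1) ^ m := by
  have h1 : T ^ t = ∑ j ∈ Finset.range (t + 1), (t.choose j : k) • (T - 1) ^ j := by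
    have h2 : T = (T - 1) + 1 := by simp
    conv_lhs => rw [h2, (Commute.one_right (T - 1)).add_pow t]
    refine Finset.sum_congr rfl fun j _ => ?_
    rw [one_pow, mul_one, Nat.cast_smul_eq_nsmul, nsmul_eq_mul]
    exact ((Nat.cast_commute _ _).eq).symm
  rw [h1]
  have hA : (∑ j ∈ Finset.range (t + 1), (t.choose j : k) • (T - 1) ^ j) =
      ∑ j ∈ Finset.range (t + 1 + N), (t.choose j : k) • (T - 1) ^ j := by
    apply Finset.sum_subset (Finset.range_mono (by omega))
    intro j _ hj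
    rw [Finset.mem_range, not_lt] at hj
    rw [Nat.choose_eq_zero_of_lt (by omega), Nat.cast_zero, zero_smul]
  have hB : (∑ j ∈ Finset.range N, (t.choose j : k) • (T - 1) ^ j) =
      ∑ j ∈ Finset.range (t + 1 + N), (t.choose j : k) • (T - 1) ^ j := by
    apply Finset.sum_subset (Finset.range_mono (by omega))
    intro j _ hj
    rw [Finset.mem_range, not_lt] at hj
    rw [pow_eq_zero_of_le hj hN, smul_zero]
  rw [hA, hB]

/-- the entry of the power `T ^ t`, as a polynomial in `t` -/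
noncomputable def pe (T : Matrix (Fin n) (Fin n) k) (N : ℕ) (i j : Fin n) : k[X] :=
  ∑ m ∈ Finset.range N, C (((T - 1) ^ m) i j) * (bin m).map (algebraMap ℚ k)

theorem pe_eval {T : Matrix (Fin n) (Fin n) k} {N : ℕ} (hN : (T - 1) ^ N = 0) (i j : Fin n)
    (t : ℕ) : (pe T N i j).eval (t : k) = (T ^ t) i j := by
  rw [pow_eq_sum hN t, Matrix.sum_apply, pe, eval_finsetSum]
  refine Finset.sum_congr rfl fun m _ => ?_
  have h1 : ((bin m).map (algebraMap ℚ k)).eval (t : k) = (t.choose m : k) := by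
    have h2 : (t : k) = algebraMap ℚ k (t : ℚ) := by rw [map_natCast]
    rw [h2, eval_map, eval₂_at_apply, bin_eval, map_natCast]
  rw [eval_mul, eval_C, h1, Matrix.smul_apply, smul_eq_mul, mul_comm]

/-- the logarithm -/
noncomputable def lg (T : Matrix (Fin n) (Fin n) k) (N : ℕ) : Matrix (Fin n) (Fin n) k :=
  ∑ m ∈ Finset.range N, (algebraMap ℚ k ((bin m).coeff 1)) • (T - 1) ^ m

theorem pe_coeff_one (T : Matrix (Fin n) (Fin n) k) (N : ℕ) (i j : Fin n) :
    (pe T N i j).coeff 1 = lg T N i j := by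
  rw [lg, pe, finsetSum_coeff, Matrix.sum_apply]
  refine Finset.sum_congr rfl fun m _ => ?_
  rw [coeff_C_mul, coeff_map, Matrix.smul_apply, smul_eq_mul, mul_comm]

/-- **The logarithm of a unipotent matrix.** -/
theorem exists_log {T : Matrix (Fin n) (Fin n) k} (hT : IsNilpotent (T - 1)) :
    ∃ L Ψ Ψ' : Matrix (Fin n) (Fin n) k, L = (T - 1) * Ψ ∧ L = Ψ * (T - 1) ∧ Ψ * Ψ' = 1 ∧
      Ψ' * Ψ = 1 ∧ ∀ (M M' : Matrix (Fin n) (Fin n) k) (Q : ℕ), M * M' = 1 → M' * M = 1 →
        M' * T * M = T ^ Q → L * M = (Q : k) • (M * L) := by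
  classical
  obtain ⟨N, hN⟩ := hT
  have hN2 : (T - 1) ^ (N + 2) = 0 := pow_eq_zero_of_le (by omega) hN
  set Ψ : Matrix (Fin n) (Fin n) k :=
    ∑ m ∈ Finset.range (N + 1), (algebraMap ℚ k ((bin (m + 1)).coeff 1)) • (T - 1) ^ m with hΨ
  have h1 : lg T (N + 2) = (T - 1) * Ψ := by
    rw [lg, Finset.sum_range_succ', bin_zero_coeff_one, map_zero, zero_smul, add_zero, hΨ,
      Finset.mul_sum]
    refine Finset.sum_congr rfl fun m _ => ?_
    rw [mul_smul_comm, ← pow_succ']
  have hcomm : Commute (T - 1) Ψ := by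
    refine Commute.sum_right _ _ _ fun m _ => ?_
    exact ((Commute.refl (T - 1)).pow_right m).smul_right _
  obtain ⟨Ψ2, hΨ2, hc2⟩ : ∃ Ψ2 : Matrix (Fin n) (Fin n) k, Ψ = 1 + (T - 1) * Ψ2 ∧
      Commute (T - 1) Ψ2 := by
    refine ⟨∑ m ∈ Finset.range N, (algebraMap ℚ k ((bin (m + 1 + 1)).coeff 1)) • (T - 1) ^ m,
      ?_, Commute.sum_right _ _ _ fun m _ => ((Commute.refl (T - 1)).pow_right m).smul_right _⟩
    rw [hΨ, Finset.sum_range_succ', zero_add, bin_one_coeff_one, map_one, one_smul, pow_zero,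
      add_comm, Finset.mul_sum]
    congr 1
    refine Finset.sum_congr rfl fun m _ => ?_
    rw [mul_smul_comm, ← pow_succ']
  have hu : IsUnit Ψ := by
    rw [hΨ2]
    refine IsNilpotent.isUnit_one_add ⟨N, ?_⟩
    rw [hc2.mul_pow, hN, zero_mul]
  obtain ⟨ψ, hψ⟩ := hu
  obtain ⟨Ψ', hΨ1, hΨ1'⟩ : ∃ Ψ' : Matrix (Fin n) (Fin n) k, Ψ * Ψ' = 1 ∧ Ψ' * Ψ = 1 := by
    refine ⟨((ψ⁻¹ : (Matrix (Fin n) (Fin n) k)ˣ) : Matrix (Fin n) (Fin n) k), ?_, ?_⟩
    · rw [← hψ, Units.mul_inv]
    · rw [← hψ, Units.inv_mul]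
  refine ⟨lg T (N + 2), Ψ, Ψ', h1, h1.trans hcomm.eq, hΨ1, hΨ1', ?_⟩
  intro M M' Q hM hM' hrel
  have hpow : ∀ t : ℕ, M' * T ^ t * M = T ^ (Q * t) := by
    intro t
    rw [pow_mul, ← hrel]
    induction t with
    | zero => rw [pow_zero, mul_one, hM', pow_zero]
    | succ t ih =>
      rw [pow_succ, pow_succ, ← ih]
      calc M' * (T ^ t * T) * M = M' * T ^ t * 1 * T * M := by simp only [mul_assoc, one_mul]
        _ = M' * T ^ t * (M * M') * T * M := by rw [hM]
        _ = _ := by simp only [mul_assoc]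
  -- the polynomial identity
  have hpoly : ∀ i j, ∑ a, ∑ b, C (M' i a * M b j) * pe T (N + 2) a b =
      (pe T (N + 2) i j).comp (C (Q : k) * X) := by
    intro i j
    apply Polynomial.eq_of_infinite_eval_eq
    refine Set.Infinite.mono (s := Set.range fun t : ℕ => (t : k)) ?_
      (Set.infinite_range_of_injective Nat.cast_injective)
    rintro _ ⟨t, rfl⟩
    rw [Set.mem_setOf_eq, eval_comp, eval_mul, eval_C, eval_X, ← Nat.cast_mul, pe_eval hN2,
      ← hpow, eval_finsetSum]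
    simp only [eval_finsetSum, eval_mul, eval_C, pe_eval hN2]
    rw [Matrix.mul_apply]
    simp only [Matrix.mul_apply, Finset.sum_mul]
    rw [Finset.sum_comm]
    refine Finset.sum_congr rfl fun a _ => Finset.sum_congr rfl fun b _ => ?_
    ring
  have hcoef : M' * lg T (N + 2) * M = (Q : k) • lg T (N + 2) := by
    ext i j
    have h2 := congrArg (fun p => Polynomial.coeff p 1) (hpoly i j)
    simp only [finsetSum_coeff, coeff_C_mul, pe_coeff_one, comp_C_mul_X_coeff, pow_one] at h2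
    rw [Matrix.smul_apply, smul_eq_mul, mul_comm, ← h2]
    rw [Matrix.mul_apply]
    simp only [Matrix.mul_apply, Finset.sum_mul]
    rw [Finset.sum_comm]
    refine Finset.sum_congr rfl fun a _ => Finset.sum_congr rfl fun b _ => ?_
    ring
  calc lg T (N + 2) * M = M * M' * lg T (N + 2) * M := by rw [hM, one_mul]
    _ = M * (M' * lg T (N + 2) * M) := by simp only [mul_assoc]
    _ = _ := by rw [hcoef, mul_smul_comm]

end Pool.Agent.D0H32.EF
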