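import Mathlib
import Pool.Agent.H977R3.CM.TowerCount
import Pool.Agent.R401.Iso

/-!
# Elements with one image under all embeddings in the complex numbers
-/

set_option autoImplicit false

namespace Pool.Agent.D0H32.EF

open Polynomial

/-- algebraic numbers which are fixed by all automorphisms of `ℂ` -/
theorem exists_rat {s : ℂ} (hs : IsAlgebraic ℚ s) (h : ∀ σ : ℂ ≃+* ℂ, σ s = s) :
    ∃ r : ℚ, (r : ℂ) = s := by
  classical
  let E := IntermediateField.adjoin ℚ {s}
  have hfd : FiniteDimensional ℚ E := IntermediateField.adjoin.finiteDimensional hs.isIntegral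
  have hnf : NumberField E := ⟨⟩
  let g : E := IntermediateField.AdjoinSimple.gen ℚ s
  let τ : E →+* ℂ := algebraMap E ℂ
  have hτ : τ g = s := IntermediateField.AdjoinSimple.algebraMap_gen ℚ s
  have hall : ∀ τ' : E →+* ℂ, τ' = τ := by
    intro τ'
    obtain ⟨σ, hσ⟩ := Pool.Agent.H977R3.CM.exists_aut_emb τ τ'
    have h1 : τ' g = τ g := by
      rw [← hσ, RingHom.comp_apply, hτ]
      exact h σ
    -- both are algebra homomorphisms which agree at the generator
    let a : E →ₐ[ℚ] ℂ := τ'.toRatAlgHom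
    let b : E →ₐ[ℚ] ℂ := τ.toRatAlgHom
    have h2 : a = b := by
      refine IntermediateField.algHom_ext_of_eq_adjoin _ (S := E) (s := {s}) rfl ?_
      intro x hx
      have hx' : x = s := hx
      subst hx'
      exact h1
    exact congrArg (fun c : E →ₐ[ℚ] ℂ => (c : E →+* ℂ)) h2
  have hcard : Fintype.card (E →+* ℂ) = 1 := Fintype.card_eq_one_iff.2 ⟨τ, hall⟩
  rw [NumberField.Embeddings.card] at hcard
  have h3 : s ∈ (⊥ : IntermediateField ℚ ℂ) := by
    have h4 : E = ⊥ := IntermediateField.finrank_eq_one_iff.1 hcard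
    rw [← h4]
    exact IntermediateField.mem_adjoin_simple_self ℚ s
  obtain ⟨r, hr⟩ := IntermediateField.mem_bot.1 h3
  exact ⟨r, by rw [← hr]; rfl⟩

/-- **Rationality.** -/
theorem rational {ℓ : ℕ} [Fact ℓ.Prime] {z : ℚ_[ℓ]} {s : ℂ} (hs : IsAlgebraic ℚ s)
    (h : ∀ e : ℚ_[ℓ] →+* ℂ, e z = s) : ∃ r : ℚ, (r : ℂ) = s ∧ z = r := by
  obtain ⟨i⟩ := Pool.Agent.R401.Iso.exists_iso ℓ
  let e : ℚ_[ℓ] →+* ℂ := (i : PadicAlgCl ℓ →+* ℂ).comp (algebraMap ℚ_[ℓ] (PadicAlgCl ℓ))
  obtain ⟨r, hr⟩ := exists_rat hs (fun σ => by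
    have h1 := h ((σ : ℂ →+* ℂ).comp e)
    rw [RingHom.comp_apply, h e] at h1
    exact h1)
  refine ⟨r, hr, e.injective ?_⟩
  rw [h e, map_ratCast, hr]

end Pool.Agent.D0H32.EF
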