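import Mathlib
import Pool.Agent.D0H32.EF.Cyc
import Pool.Agent.R401.Tr10

/-!
# The action of inertia: unipotent elements, and one element with all invariants
-/

set_option autoImplicit false
set_option linter.unusedSectionVars false
set_option maxHeartbeats 1000000

namespace Pool.Agent.D0H32.EF

open NumberField Filter Topology Pool.Agent.W569.FM Pool.Agent.W401.Cheb Matrix Module Polynomial
open Pool.Agent.R401.Tr5 Pool.Agent.R401.Tr9

variable {K : Type} [Field K] [NumberField K] {ℓ : ℕ} [Fact ℓ.Prime] {n : ℕ}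

/-- all fixed column and row vectors of `A` are fixed by `B` -/
def Dom (A B : Matrix (Fin n) (Fin n) ℚ_[ℓ]) : Prop :=
  (∀ x, A *ᵥ x = x → B *ᵥ x = x) ∧ ∀ y, y ᵥ* A = y → y ᵥ* B = y

theorem mulVec_pow_fix {A : Matrix (Fin n) (Fin n) ℚ_[ℓ]} {x : Fin n → ℚ_[ℓ]}
    (h : A *ᵥ x = x) (k : ℕ) : A ^ k *ᵥ x = x := by
  induction k with
  | zero => rw [pow_zero, Matrix.one_mulVec]
  | succ k ih => rw [pow_succ, ← Matrix.mulVec_mulVec, h, ih]

theorem vecMul_pow_fix {A : Matrix (Fin n) (Fin n) ℚ_[ℓ]} {x : Fin n → ℚ_[ℓ]}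
    (h : x ᵥ* A = x) (k : ℕ) : x ᵥ* A ^ k = x := by
  induction k with
  | zero => rw [pow_zero, Matrix.vecMul_one]
  | succ k ih => rw [pow_succ, ← Matrix.vecMul_vecMul, ih, h]

theorem dom_zpow (ρ : GK K →* Matrix (Fin n) (Fin n) ℚ_[ℓ]) (τ : GK K) (k : ℤ) :
    Dom (ρ τ) (ρ (τ ^ k)) := by
  have hinv : ∀ (x : Fin n → ℚ_[ℓ]) (g : GK K), ρ g *ᵥ x = x → ρ g⁻¹ *ᵥ x = x := by
    intro x g h
    conv_lhs => rw [← h]
    rw [Matrix.mulVec_mulVec, ← map_mul, inv_mul_cancel, map_one, Matrix.one_mulVec]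
  have hinv' : ∀ (x : Fin n → ℚ_[ℓ]) (g : GK K), x ᵥ* ρ g = x → x ᵥ* ρ g⁻¹ = x := by
    intro x g h
    conv_lhs => rw [← h]
    rw [Matrix.vecMul_vecMul, ← map_mul, mul_inv_cancel, map_one, Matrix.vecMul_one]
  constructor
  · intro x hx
    obtain ⟨j, rfl | rfl⟩ := k.eq_nat_or_neg
    · rw [zpow_natCast, map_pow]
      exact mulVec_pow_fix hx j
    · rw [_root_.zpow_neg, zpow_natCast]
      apply hinv
      rw [map_pow]
      exact mulVec_pow_fix hx j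
  · intro x hx
    obtain ⟨j, rfl | rfl⟩ := k.eq_nat_or_neg
    · rw [zpow_natCast, map_pow]
      exact vecMul_pow_fix hx j
    · rw [_root_.zpow_neg, zpow_natCast]
      apply hinv'
      rw [map_pow]
      exact vecMul_pow_fix hx j

theorem isClosed_dom (A : Matrix (Fin n) (Fin n) ℚ_[ℓ]) : IsClosed {B | Dom A B} := by
  have h : {B | Dom A B} = (⋂ x : Fin n → ℚ_[ℓ], {B | A *ᵥ x = x → B *ᵥ x = x}) ∩
      ⋂ x : Fin n → ℚ_[ℓ], {B | x ᵥ* A = x → x ᵥ* B = x} := by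
    ext B
    simp only [Dom, Set.mem_inter_iff, Set.mem_iInter]
    rfl
  rw [h]
  refine IsClosed.inter (isClosed_iInter fun x => ?_) (isClosed_iInter fun x => ?_)
  · by_cases hx : A *ᵥ x = x
    · have h1 : {B : Matrix (Fin n) (Fin n) ℚ_[ℓ] | A *ᵥ x = x → B *ᵥ x = x} =
          {B | B *ᵥ x = x} := by
        ext B
        exact ⟨fun h => h hx, fun h _ => h⟩
      rw [h1]
      exact isClosed_eq (Continuous.matrix_mulVec continuous_id continuous_const) continuous_const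
    · have h1 : {B : Matrix (Fin n) (Fin n) ℚ_[ℓ] | A *ᵥ x = x → B *ᵥ x = x} = Set.univ := by
        ext B
        exact ⟨fun _ => trivial, fun _ h => absurd h hx⟩
      rw [h1]
      exact isClosed_univ
  · by_cases hx : x ᵥ* A = x
    · have h1 : {B : Matrix (Fin n) (Fin n) ℚ_[ℓ] | x ᵥ* A = x → x ᵥ* B = x} =
          {B | x ᵥ* B = x} := by
        ext B
        exact ⟨fun h => h hx, fun h _ => h⟩
      rw [h1]
      exact isClosed_eq (Continuous.matrix_vecMul continuous_const continuous_id) continuous_const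
    · have h1 : {B : Matrix (Fin n) (Fin n) ℚ_[ℓ] | x ᵥ* A = x → x ᵥ* B = x} = Set.univ := by
        ext B
        exact ⟨fun _ => trivial, fun _ h => absurd h hx⟩
      rw [h1]
      exact isClosed_univ

/-- two elements of inertia -/
theorem dom_or (ρ : GK K →* Matrix (Fin n) (Fin n) ℚ_[ℓ]) (hρ : Continuous ρ)
    (H : Subgroup (GK K)) [hHn : H.Normal] (hH : IsOpen (H : Set (GK K)))
    (hU : ∀ x ∈ H, Tendsto (fun k : ℕ => ρ x ^ (ℓ ^ k)) atTop (𝓝 1)) {l : ℕ} (hl : l.Prime)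
    (hlℓ : ℓ ≠ l) {P : Ideal (OO K)} (hP : P.IsMaximal) (hlP : (l : OO K) ∈ P) {τ₁ τ₂ : GK K}
    (hτ₁H : τ₁ ∈ H) (hτ₁ : InInertia P τ₁) (hτ₂H : τ₂ ∈ H) (hτ₂ : InInertia P τ₂) :
    Dom (ρ τ₁) (ρ τ₂) ∨ Dom (ρ τ₂) (ρ τ₁) := by
  classical
  by_contra hcon
  rw [not_or] at hcon
  obtain ⟨h12, h21⟩ := hcon
  -- a neighbourhood
  have hO : ∀ τ τ' : GK K, ¬ Dom (ρ τ) (ρ τ') →
      {u : GK K | ¬ Dom (ρ τ) (ρ (τ' * u))} ∈ 𝓝 (1 : GK K) := by
    intro τ τ' h
    have h1 : IsOpen {u : GK K | ¬ Dom (ρ τ) (ρ (τ' * u))} := by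
      have h2 : Continuous fun u : GK K => ρ (τ' * u) :=
        hρ.comp (continuous_const.mul continuous_id)
      exact ((isClosed_dom (ρ τ)).isOpen_compl.preimage h2)
    refine h1.mem_nhds ?_
    change ¬ Dom (ρ τ) (ρ (τ' * 1))
    rwa [mul_one]
  obtain ⟨s, hs1, hs2, hs3⟩ := mem_nhds_iff.1 (Filter.inter_mem (hO τ₁ τ₂ h12) (hO τ₂ τ₁ h21))
  obtain ⟨U, hUs⟩ := ProfiniteGrp.exist_openNormalSubgroup_sub_open_nhds_of_one hs2 hs3
  have hUn : (U : Subgroup (GK K)).Normal := U.isNormal'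
  have hUo : IsOpen (((U : Subgroup (GK K)) : Subgroup (GK K)) : Set (GK K)) := U.isOpen'
  set W : Subgroup (GK K) := ρ.ker ⊔ (U : Subgroup (GK K)) with hW
  have hWo : IsOpen (W : Set (GK K)) := Subgroup.isOpen_mono le_sup_right hUo
  have hWn : W.Normal := Subgroup.sup_normal _ _
  have hpow : ∀ x ∈ H, ∃ k : ℕ, x ^ (ℓ ^ k) ∈ W := by
    intro x hx
    have hcomp : IsClosed (ρ '' (W : Set (GK K))ᶜ) :=
      (hWo.isClosed_compl.isCompact.image hρ).isClosed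
    have h2 : (1 : Matrix (Fin n) (Fin n) ℚ_[ℓ]) ∉ ρ '' (W : Set (GK K))ᶜ := by
      rintro ⟨y, hy, hy1⟩
      exact hy ((le_sup_left : ρ.ker ≤ W) hy1)
    have h3 := (hU x hx).eventually (hcomp.isOpen_compl.mem_nhds h2)
    obtain ⟨k, hk⟩ := h3.exists
    refine ⟨k, ?_⟩
    by_contra hcon
    exact hk ⟨x ^ (ℓ ^ k), hcon, map_pow ρ x _⟩
  set f : H →* (GK K ⧸ W) := (QuotientGroup.mk' W).comp H.subtype with hf
  have hE : IsPGroup ℓ f.range := by
    rintro ⟨_, x, rfl⟩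
    obtain ⟨k, hk⟩ := hpow x x.2
    refine ⟨k, Subtype.ext ?_⟩
    change f x ^ (ℓ ^ k) = 1
    rw [← map_pow]
    exact (QuotientGroup.eq_one_iff _).2 hk
  have hopen : IsOpen (f.rangeRestrict.ker : Set H) := by
    have h2 : (f.rangeRestrict.ker : Set H) = H.subtype ⁻¹' (W : Set (GK K)) := by
      ext x
      rw [SetLike.mem_coe, MonoidHom.ker_rangeRestrict, MonoidHom.mem_ker]
      exact QuotientGroup.eq_one_iff _
    rw [h2]
    exact hWo.preimage continuous_subtype_val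
  have hcmp := comparable K (Fact.out : ℓ.Prime) hl hlℓ H hH f.range hE
    f.rangeRestrict hopen P hP hlP ⟨τ₁, hτ₁H⟩ ⟨τ₂, hτ₂H⟩ hτ₁ hτ₂
  -- from powers to a contradiction
  have key : ∀ {τ τ' : GK K}, (hτ : τ ∈ H) → (hτ' : τ' ∈ H) →
      (∀ u ∈ (U : Subgroup (GK K)), ¬ Dom (ρ τ) (ρ (τ' * u))) →
      f.rangeRestrict ⟨τ', hτ'⟩ ∈ Subgroup.zpowers (f.rangeRestrict ⟨τ, hτ⟩) → False := by
    intro τ τ' hτ hτ' hno hmem
    obtain ⟨k, hk⟩ := hmem
    have h1 : f (⟨τ, hτ⟩ ^ k) = f ⟨τ', hτ'⟩ := by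
      rw [map_zpow]
      exact congrArg Subtype.val hk
    have h2 : ((τ ^ k : GK K) : GK K ⧸ W) = ((τ' : GK K) : GK K ⧸ W) := h1
    have h3 := QuotientGroup.eq.1 h2.symm
    obtain ⟨κ, hκ, u, hu, hκu⟩ := Subgroup.mem_sup_of_normal_right.1 h3
    have h4 : ρ (τ ^ k) = ρ (τ' * u) := by
      have h5 : τ ^ k = τ' * (κ * u) := by rw [hκu, mul_inv_cancel_left]
      have hκ1 : ρ κ = 1 := hκ
      rw [h5, map_mul, map_mul, hκ1, one_mul, ← map_mul]
    apply hno u hu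
    rw [← h4]
    exact dom_zpow ρ τ k
  rcases hcmp with h | h
  · exact key hτ₂H hτ₁H (fun u hu => (hs1 (hUs hu)).2) h
  · exact key hτ₁H hτ₂H (fun u hu => (hs1 (hUs hu)).1) h

/-- the number of independent fixed vectors -/
noncomputable def fd (A : Matrix (Fin n) (Fin n) ℚ_[ℓ]) : ℕ :=
  finrank ℚ_[ℓ] (LinearMap.ker (A - 1).mulVecLin)

theorem fd_eq (A : Matrix (Fin n) (Fin n) ℚ_[ℓ]) : fd A + (A - 1).rank = n := by
  have h := (A - 1).mulVecLin.finrank_range_add_finrank_ker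
  rw [Module.finrank_fin_fun] at h
  rw [fd, Matrix.rank, add_comm]
  exact h

theorem fd_transpose (A : Matrix (Fin n) (Fin n) ℚ_[ℓ]) : fd Aᵀ = fd A := by
  have h1 := fd_eq A
  have h2 := fd_eq Aᵀ
  have h3 : Aᵀ - 1 = (A - 1)ᵀ := by rw [Matrix.transpose_sub, Matrix.transpose_one]
  rw [h3, Matrix.rank_transpose] at h2
  omega

theorem dom_of_fd {A B : Matrix (Fin n) (Fin n) ℚ_[ℓ]} (h : Dom A B) (hfd : fd B ≤ fd A) :
    Dom B A := by
  have key : ∀ {A B : Matrix (Fin n) (Fin n) ℚ_[ℓ]}, (∀ x, A *ᵥ x = x → B *ᵥ x = x) →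
      fd B ≤ fd A → ∀ x, B *ᵥ x = x → A *ᵥ x = x := by
    intro A B h hfd x hx
    have hmem : ∀ (C : Matrix (Fin n) (Fin n) ℚ_[ℓ]) (x : Fin n → ℚ_[ℓ]),
        x ∈ LinearMap.ker (C - 1).mulVecLin ↔ C *ᵥ x = x := by
      intro C x
      rw [LinearMap.mem_ker, Matrix.mulVecLin_apply, Matrix.sub_mulVec, Matrix.one_mulVec,
        sub_eq_zero]
    have hle : LinearMap.ker (A - 1).mulVecLin ≤ LinearMap.ker (B - 1).mulVecLin := by
      intro x hx
      rw [hmem] at hx ⊢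
      exact h x hx
    have heq := Submodule.eq_of_le_of_finrank_le hle hfd
    rw [← hmem, heq, hmem]
    exact hx
  refine ⟨key h.1 hfd, ?_⟩
  intro y hy
  rw [← Matrix.mulVec_transpose] at hy ⊢
  refine key (A := Aᵀ) (B := Bᵀ) ?_ ?_ y hy
  · intro x hx
    rw [Matrix.mulVec_transpose] at hx ⊢
    exact h.2 x hx
  · rw [fd_transpose, fd_transpose]
    exact hfd

/-- **One element of inertia has all invariants.** -/
theorem exists_gen (ρ : GK K →* Matrix (Fin n) (Fin n) ℚ_[ℓ]) (hρ : Continuous ρ)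
    (H : Subgroup (GK K)) [hHn : H.Normal] (hH : IsOpen (H : Set (GK K)))
    (hU : ∀ x ∈ H, Tendsto (fun k : ℕ => ρ x ^ (ℓ ^ k)) atTop (𝓝 1)) {P : Ideal (OO K)}
    (hP : P.IsMaximal) (hℓP : (ℓ : OO K) ∉ P) :
    ∃ τ₀ ∈ H, InInertia P τ₀ ∧ ∀ τ ∈ H, InInertia P τ → Dom (ρ τ₀) (ρ τ) := by
  classical
  obtain ⟨l, hl, hlP⟩ := Pool.Agent.R703.FM.exists_prime_mem P hP
  have hne : ℓ ≠ l := by
    rintro rfl
    exact hℓP hlP
  let S : Set ℕ := {d | ∃ τ ∈ H, InInertia P τ ∧ fd (ρ τ) = d}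
  have hS : S.Nonempty := ⟨fd (ρ 1), 1, H.one_mem, (IG P).one_mem, rfl⟩
  obtain ⟨τ₀, hτ₀H, hτ₀, hd⟩ := Nat.sInf_mem hS
  refine ⟨τ₀, hτ₀H, hτ₀, fun τ hτH hτ => ?_⟩
  rcases dom_or ρ hρ H hH hU hl hne hP hlP hτ₀H hτ₀ hτH hτ with h | h
  · exact h
  · refine dom_of_fd h ?_
    rw [hd]
    exact Nat.sInf_le ⟨τ, hτH, hτ, rfl⟩

/-- roots of unity -/
theorem pow_of_spectrum {A S S' : Matrix (Fin n) (Fin n) ℂ} (hS : S * S' = 1) (hS' : S' * S = 1)
    {q : ℕ} (hq : 2 ≤ q) (hrel : S * A * S' = A ^ q) (hA : IsUnit A) {α : ℂ}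
    (hα : α ∈ spectrum ℂ A) : α ^ (q ^ n.factorial - 1) = 1 := by
  classical
  have hfin : (spectrum ℂ A).Finite := Matrix.finite_spectrum A
  let u : (Matrix (Fin n) (Fin n) ℂ)ˣ := ⟨S, S', hS, hS'⟩
  have h1 : spectrum ℂ (A ^ q) = spectrum ℂ A := by
    rw [← hrel]
    exact spectrum.units_conjugate (u := u)
  have h2 : spectrum ℂ (A ^ q) = (fun z => z ^ q) '' spectrum ℂ A :=
    spectrum.map_pow_of_pos A (by omega)
  have himg : (fun z : ℂ => z ^ q) '' spectrum ℂ A = spectrum ℂ A := by rw [← h2, h1]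
  have : Finite (spectrum ℂ A) := hfin
  have := Fintype.ofFinite (spectrum ℂ A)
  let π : spectrum ℂ A → spectrum ℂ A := fun z => ⟨(z : ℂ) ^ q, by
    have h3 : (z : ℂ) ^ q ∈ (fun z : ℂ => z ^ q) '' spectrum ℂ A := ⟨z, z.2, rfl⟩
    rwa [himg] at h3⟩
  have hsurj : Function.Surjective π := by
    rintro ⟨z, hz⟩
    have h3 := hz
    rw [← himg] at h3
    obtain ⟨y, hy, hyz⟩ := h3
    exact ⟨⟨y, hy⟩, Subtype.ext hyz⟩
  let e : Equiv.Perm (spectrum ℂ A) := Equiv.ofBijective π (Finite.injective_iff_surjective.2 hsurj |>.bijective_of_finite)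
  have hcard : Fintype.card (spectrum ℂ A) ≤ n := by
    have h3 : (spectrum ℂ A) ⊆ (A.charpoly.roots.toFinset : Set ℂ) := by
      intro z hz
      rw [Finset.mem_coe, Multiset.mem_toFinset, mem_roots (Matrix.charpoly_monic A).ne_zero]
      exact Matrix.mem_spectrum_iff_isRoot_charpoly.1 hz
    have h4 : Fintype.card (spectrum ℂ A) ≤ A.charpoly.roots.toFinset.card := by
      rw [← Set.toFinset_card]
      apply Finset.card_le_card
      intro z hz
      exact h3 (Set.mem_toFinset.1 hz)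
    refine h4.trans ((Multiset.toFinset_card_le _).trans ?_)
    refine (Polynomial.card_roots' _).trans ?_
    rw [Matrix.charpoly_natDegree_eq_dim, Fintype.card_fin]
  have hpow : e ^ n.factorial = 1 := by
    have h3 : orderOf e ∣ n.factorial := by
      refine (orderOf_dvd_card (x := e)).trans ?_
      rw [Fintype.card_perm]
      exact Nat.factorial_dvd_factorial hcard
    exact orderOf_dvd_iff_pow_eq_one.1 h3
  have hiter : ∀ (k : ℕ) (z : spectrum ℂ A), (((e ^ k) z : spectrum ℂ A) : ℂ) = (z : ℂ) ^ q ^ k := by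
    intro k
    induction k with
    | zero => intro z; rw [pow_zero, pow_zero, pow_one]; rfl
    | succ k ih =>
      intro z
      rw [pow_succ, Equiv.Perm.mul_apply, ih, pow_succ, mul_comm, pow_mul]
      rfl
  have h3 := hiter n.factorial ⟨α, hα⟩
  rw [hpow] at h3
  have h4 : α = α ^ q ^ n.factorial := h3
  have hα0 : α ≠ 0 := by
    rintro rfl
    rw [spectrum.zero_mem_iff] at hα
    exact hα hA
  have h5 : 1 ≤ q ^ n.factorial := Nat.one_le_pow _ _ (by omega)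
  have h6 : α * α ^ (q ^ n.factorial - 1) = α * 1 := by
    rw [← pow_succ', Nat.sub_add_cancel h5, mul_one]
    exact h4.symm
  exact mul_left_cancel₀ hα0 h6

/-- finitely many sums of roots of unity -/
theorem finite_sums (n N : ℕ) (hN : 0 < N) :
    {s : ℂ | ∃ m : Multiset ℂ, Multiset.card m = n ∧ (∀ z ∈ m, z ^ N = 1) ∧ m.sum = s}.Finite := by
  classical
  have hfin : Finite {z : ℂ // z ^ N = 1} := by
    have h1 : {z : ℂ | z ^ N = 1}.Finite := by
      refine Set.Finite.subset (Finset.finite_toSet (nthRootsFinset N (1 : ℂ))) fun z hz => ?_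
      rw [Finset.mem_coe, mem_nthRootsFinset hN]
      exact hz
    exact h1
  refine Set.Finite.subset (Set.finite_range fun f : Fin n → {z : ℂ // z ^ N = 1} =>
    ∑ i, (f i : ℂ)) ?_
  rintro s ⟨m, hm, hz, rfl⟩
  obtain ⟨L, rfl⟩ : ∃ L : List ℂ, (L : Multiset ℂ) = m := Quot.exists_rep m
  rw [Multiset.coe_card] at hm
  subst hm
  refine ⟨fun i => ⟨L.get i, hz _ (List.get_mem L i)⟩, ?_⟩
  change ∑ i : Fin L.length, L.get i = _
  rw [Multiset.sum_coe, ← List.sum_ofFn, List.ofFn_get]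

/-- **The monodromy theorem.** -/
theorem exists_unip (ρ : GK K →* Matrix (Fin n) (Fin n) ℚ_[ℓ]) (hρ : Continuous ρ)
    {P : Ideal (OO K)} (hP : P.IsMaximal) (hℓP : (ℓ : OO K) ∉ P) {q : ℕ} (hq : 2 ≤ q) {σ : GK K}
    (hσ : FrobAt q P σ) :
    ∃ H : Subgroup (GK K), H.Normal ∧ IsOpen (H : Set (GK K)) ∧
      (∀ x ∈ H, Tendsto (fun k : ℕ => ρ x ^ (ℓ ^ k)) atTop (𝓝 1)) ∧
      ∀ τ ∈ H, InInertia P τ → IsNilpotent (ρ τ - 1) := by
  classical
  obtain ⟨H₁, hH₁n, hH₁o, hH₁⟩ := exists_small ρ hρ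
  obtain ⟨l, hl, hlP⟩ := Pool.Agent.R703.FM.exists_prime_mem P hP
  have hne : ℓ ≠ l := by
    rintro rfl
    exact hℓP hlP
  obtain ⟨i⟩ := Pool.Agent.R401.Iso.exists_iso ℓ
  let e : ℚ_[ℓ] →+* ℂ := (i : PadicAlgCl ℓ →+* ℂ).comp (algebraMap ℚ_[ℓ] (PadicAlgCl ℓ))
  set N : ℕ := q ^ n.factorial - 1 with hN
  have hN0 : 0 < N := by
    have h1 : 1 < q ^ n.factorial := Nat.one_lt_pow (Nat.factorial_ne_zero n) (by omega)
    omega
  set Z : Set ℚ_[ℓ] := e ⁻¹' {s : ℂ | ∃ m : Multiset ℂ, Multiset.card m = n ∧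
    (∀ z ∈ m, z ^ N = 1) ∧ m.sum = s} with hZ
  have hZf : Z.Finite := (finite_sums n N hN0).preimage e.injective.injOn
  have htr : ∀ τ ∈ H₁, InInertia P τ → (ρ τ).trace ∈ Z := by
    intro τ hτH hτ
    have hrel := tame_rel' ρ hρ H₁ hH₁o hH₁ hl hne (by omega) hP hlP hτH hτ hσ
    have hm : ∀ g, (ρ g).map e = e.mapMatrix (ρ g) := fun g => rfl
    refine ⟨((ρ τ).map e).charpoly.roots, ?_, ?_, ?_⟩
    · have h0 := Polynomial.splits_iff_card_roots.1 (IsAlgClosed.splits ((ρ τ).map e).charpoly)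
      rw [h0, Matrix.charpoly_natDegree_eq_dim, Fintype.card_fin]
    · intro z hz
      refine pow_of_spectrum (S := (ρ σ).map e) (S' := (ρ σ⁻¹).map e) (A := (ρ τ).map e)
        ?_ ?_ hq ?_ ?_ ?_
      · rw [hm, hm, ← map_mul, ← map_mul, mul_inv_cancel, map_one, map_one]
      · rw [hm, hm, ← map_mul, ← map_mul, inv_mul_cancel, map_one, map_one]
      · rw [hm, hm, hm, ← map_mul, ← map_mul, ← map_mul, ← map_mul, hrel, map_pow]
      · rw [hm]
        exact (IsUnit.map ρ (Group.isUnit τ)).map e.mapMatrix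
      · rw [Matrix.mem_spectrum_iff_isRoot_charpoly]
        exact (mem_roots (Matrix.charpoly_monic _).ne_zero).1 hz
    · rw [← Matrix.trace_eq_sum_roots_charpoly, Matrix.trace, Matrix.trace, map_sum]
      rfl
  have hO : IsOpen {g : GK K | (ρ g).trace ∉ Z \ {(n : ℚ_[ℓ])}} := by
    have h1 : IsClosed (Z \ {(n : ℚ_[ℓ])}) := (hZf.subset Set.sdiff_subset).isClosed
    exact h1.isOpen_compl.preimage hρ.matrix_trace
  have h1O : (1 : GK K) ∈ {g : GK K | (ρ g).trace ∉ Z \ {(n : ℚ_[ℓ])}} := by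
    intro h
    apply h.2
    rw [map_one, Matrix.trace_one, Fintype.card_fin]
    rfl
  obtain ⟨U, hUs⟩ := ProfiniteGrp.exist_openNormalSubgroup_sub_open_nhds_of_one hO h1O
  have hUn : (U : Subgroup (GK K)).Normal := U.isNormal'
  refine ⟨H₁ ⊓ (U : Subgroup (GK K)), inferInstance, ?_, fun x hx => hH₁ x hx.1, ?_⟩
  · rw [Subgroup.coe_inf]
    exact hH₁o.inter U.isOpen'
  · intro τ hτH hτ
    apply Pool.Agent.R401.Tr3.nilp_of_trace
    intro j
    have h2 : τ ^ j ∈ H₁ ⊓ (U : Subgroup (GK K)) := Subgroup.pow_mem _ hτH j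
    have h3 : InInertia P (τ ^ j) := (IG P).pow_mem (show τ ∈ IG P from hτ) j
    have h4 := htr _ h2.1 h3
    have h5 : (ρ (τ ^ j)).trace ∉ Z \ {(n : ℚ_[ℓ])} := hUs h2.2
    rw [← map_pow]
    by_contra hne
    exact h5 ⟨h4, hne⟩

end Pool.Agent.D0H32.EF
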