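import Mathlib
import Pool.Agent.D0H32.EF.Tame
import Pool.Agent.D0H32.EF.Dual
import Pool.Agent.D0H32.EF.Lin
import Pool.Agent.D0H32.EF.Log
import Pool.Agent.D0H32.EF.Rat

/-!
# Traces on the invariants of small inertia groups
-/

set_option autoImplicit false
set_option linter.unusedSectionVars false
set_option maxHeartbeats 1000000

namespace Pool.Agent.D0H32.EF

open NumberField Filter Topology Pool.Agent.W569.FM Pool.Agent.W401.Cheb Matrix Module Polynomial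
open Pool.Agent.R401.Tr5 Pool.Agent.R401.Tr9

section lift

variable {F : Type} [Field F] (e : F →+* ℂ) {m : ℕ}

/-- **Lifting of row eigenvectors from a quotient.** -/
theorem lift_row {W : Submodule F (Fin m → F)} {M : Matrix (Fin m) (Fin m) F}
    (hM : W ≤ W.comap (Matrix.toLin' M)) {β : ℂ} (hβ : β ∈ rts e (W.mapQ W (Matrix.toLin' M) hM)) :
    ∃ y : Fin m → ℂ, y ≠ 0 ∧ y ᵥ* M.map e = β • y ∧
      ∀ B : Matrix (Fin m) (Fin m) F,
        (∀ z : Fin m → F, (∀ x ∈ W, z ⬝ᵥ x = 0) → z ᵥ* B = z) → y ᵥ* B.map e = y := by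
  classical
  have hmap : ∀ {p q s : ℕ} (X : Matrix (Fin p) (Fin q) F) (Z : Matrix (Fin q) (Fin s) F),
      (X * Z).map e = X.map e * Z.map e := fun X Z => Matrix.map_mul
  let b := Module.finBasis F ((Fin m → F) ⧸ W)
  set r := finrank F ((Fin m → F) ⧸ W) with hr
  let c : (Fin m → F) →ₗ[F] (Fin r → F) := (b.equivFun : _ →ₗ[F] _) ∘ₗ W.mkQ
  let D := LinearMap.toMatrix b b (W.mapQ W (Matrix.toLin' M) hM)
  let π : Matrix (Fin r) (Fin m) F := LinearMap.toMatrix' c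
  have hπx : ∀ x, π *ᵥ x = b.equivFun (W.mkQ x) := by
    intro x
    have h1 := congrFun (congrArg DFunLike.coe (Matrix.toLin'_toMatrix' c)) x
    rw [Matrix.toLin'_apply] at h1
    exact h1
  have hπM : π * M = D * π := by
    apply Matrix.toLin'.injective
    refine LinearMap.ext fun x => ?_
    rw [Matrix.toLin'_apply, Matrix.toLin'_apply, ← Matrix.mulVec_mulVec, ← Matrix.mulVec_mulVec,
      hπx, hπx]
    have h2 := LinearMap.toMatrix_mulVec_repr b b (W.mapQ W (Matrix.toLin' M) hM) (W.mkQ x)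
    have h3 : (b.equivFun (W.mkQ x) : Fin r → F) = b.repr (W.mkQ x) := rfl
    rw [h3, h2]
    rfl
  have hsurj : LinearMap.range c = ⊤ := by
    rw [LinearMap.range_eq_top]
    exact b.equivFun.surjective.comp W.mkQ_surjective
  obtain ⟨g, hg⟩ := LinearMap.exists_rightInverse_of_surjective c hsurj
  have hπR : π * LinearMap.toMatrix' g = 1 := by
    have h1 := congrArg LinearMap.toMatrix' hg
    rw [LinearMap.toMatrix'_comp, LinearMap.toMatrix'_id] at h1
    exact h1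
  -- the row eigenvector of `D`
  have h1 : β ∈ spectrum ℂ ((D.map e)ᵀ) := by
    rw [Matrix.mem_spectrum_iff_isRoot_charpoly, Matrix.charpoly_transpose]
    rw [rts_eq e b] at hβ
    exact (mem_roots (Matrix.charpoly_monic _).ne_zero).1 hβ
  obtain ⟨d, hd, hDd⟩ := exists_eigenvector h1
  rw [Matrix.mulVec_transpose] at hDd
  refine ⟨d ᵥ* π.map e, ?_, ?_, ?_⟩
  · intro h0
    apply hd
    have h2 : (d ᵥ* π.map e) ᵥ* (LinearMap.toMatrix' g).map e = d := by
      rw [Matrix.vecMul_vecMul, ← hmap, hπR, Matrix.map_one e (map_zero e) (map_one e),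
        Matrix.vecMul_one]
    rw [← h2, h0, Matrix.zero_vecMul]
  · rw [Matrix.vecMul_vecMul, ← hmap, hπM, hmap, ← Matrix.vecMul_vecMul, hDd, Matrix.smul_vecMul]
  · intro B hB
    have h2 : π * B = π := by
      ext i j
      have h3 : (π i) ᵥ* B = π i := by
        apply hB
        intro x hx
        have h4 : (π *ᵥ x) i = 0 := by
          rw [hπx]
          have h5 : W.mkQ x = 0 := by
            rw [Submodule.mkQ_apply, Submodule.Quotient.mk_eq_zero]
            exact hx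
          rw [h5, map_zero]
          rfl
        exact h4
      have h4 := congrFun h3 j
      rw [Matrix.mul_apply]
      exact h4
    rw [Matrix.vecMul_vecMul, ← hmap, h2]

end lift

variable {K : Type} [Field K] [NumberField K] {ℓ : ℕ} [Fact ℓ.Prime] {n : ℕ}

/-- The weights on invariants are at most `w`, and on coinvariants at least `w`. -/
def WB (V : GK K →* Matrix (Fin n) (Fin n) ℚ_[ℓ]) (P : Ideal (OO K)) (q : ℕ) (w : ℤ) : Prop :=
  ∀ a : ℕ, 0 < a → ∀ h : GK K, FrobAt (q ^ a) P h⁻¹ →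
    ∀ H : Subgroup (GK K), H.Normal → IsOpen (H : Set (GK K)) →
    ∀ (e : ℚ_[ℓ] →+* ℂ) (α : ℂ) (x : Fin n → ℂ), x ≠ 0 →
    ((∀ τ ∈ H, InInertia P τ → (V τ).map e *ᵥ x = x) → (V h).map e *ᵥ x = α • x →
      ‖α‖ ^ 2 ≤ ((q : ℝ) ^ a) ^ w) ∧
    ((∀ τ ∈ H, InInertia P τ → x ᵥ* (V τ).map e = x) → x ᵥ* (V h).map e = α • x →
      ((q : ℝ) ^ a) ^ w ≤ ‖α‖ ^ 2)

/-- the invariants of the inertia elements in `H` -/
def invH (V : GK K →* Matrix (Fin n) (Fin n) ℚ_[ℓ]) (P : Ideal (OO K)) (H : Subgroup (GK K)) :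
    Submodule ℚ_[ℓ] (Fin n → ℚ_[ℓ]) where
  carrier := {x | ∀ τ ∈ H, InInertia P τ → V τ *ᵥ x = x}
  add_mem' := by
    intro a b ha hb τ h1 h2
    rw [Matrix.mulVec_add, ha τ h1 h2, hb τ h1 h2]
  zero_mem' := by
    intro τ _ _
    rw [Matrix.mulVec_zero]
  smul_mem' := by
    intro c a ha τ h1 h2
    rw [Matrix.mulVec_smul, ha τ h1 h2]

theorem mem_invH {V : GK K →* Matrix (Fin n) (Fin n) ℚ_[ℓ]} {P : Ideal (OO K)}
    {H : Subgroup (GK K)} {x : Fin n → ℚ_[ℓ]} :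
    x ∈ invH V P H ↔ ∀ τ ∈ H, InInertia P τ → V τ *ᵥ x = x := Iff.rfl

/-- **The trace on the invariants.** -/
theorem trace_invH (V : GK K →* Matrix (Fin n) (Fin n) ℚ_[ℓ]) (hV : Continuous V)
    {P : Ideal (OO K)} (hP : P.IsMaximal) (hℓP : (ℓ : OO K) ∉ P) {q : ℕ} (hq : 2 ≤ q) {w : ℤ}
    (hWB : WB V P q w) (H : Subgroup (GK K)) [hHn : H.Normal] (hH : IsOpen (H : Set (GK K)))
    (hU : ∀ x ∈ H, Tendsto (fun k : ℕ => V x ^ (ℓ ^ k)) atTop (𝓝 1))
    (hnil : ∀ τ ∈ H, InInertia P τ → IsNilpotent (V τ - 1)) {a : ℕ} (ha : 0 < a) {h : GK K}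
    (hh : FrobAt (q ^ a) P h⁻¹) (e : ℚ_[ℓ] →+* ℂ) (p : Matrix (Fin n) (Fin n) ℚ_[ℓ])
    (hp : ∀ x, p *ᵥ x ∈ invH V P H) (hp' : ∀ x ∈ invH V P H, p *ᵥ x = x) :
    e (V h * p).trace = SS (q ^ a) (((q : ℝ) ^ a) ^ w) ((V h).charpoly.map e).roots := by
  classical
  obtain ⟨l, hl, hlP⟩ := Pool.Agent.R703.FM.exists_prime_mem P hP
  have hne : ℓ ≠ l := by
    rintro rfl
    exact hℓP hlP
  have hqa : 2 ≤ q ^ a := by
    calc 2 ≤ q := hq
      _ = q ^ 1 := (pow_one q).symm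
      _ ≤ q ^ a := Nat.pow_le_pow_right (by omega) ha
  obtain ⟨τ₀, hτ₀H, hτ₀, hdom⟩ := exists_gen V hV H hH hU hP hℓP
  obtain ⟨L, Ψ, Ψ', hL1, hL2, hΨ1, hΨ2, hscale⟩ := exists_log (hnil τ₀ hτ₀H hτ₀)
  have hrel := tame_rel' V hV H hH hU hl hne (q := q ^ a) (by omega) hP hlP hτ₀H hτ₀ hh
  have hVh1 : V h * V h⁻¹ = 1 := by rw [← map_mul, mul_inv_cancel, map_one]
  have hVh2 : V h⁻¹ * V h = 1 := by rw [← map_mul, inv_mul_cancel, map_one]
  have hLV := hscale (V h) (V h⁻¹) (q ^ a) hVh1 hVh2 (by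
    rw [← hrel, inv_inv, map_mul, map_mul])
  -- the linear maps
  set f : (Fin n → ℚ_[ℓ]) →ₗ[ℚ_[ℓ]] (Fin n → ℚ_[ℓ]) := Matrix.toLin' (V h) with hf
  set N : (Fin n → ℚ_[ℓ]) →ₗ[ℚ_[ℓ]] (Fin n → ℚ_[ℓ]) := Matrix.toLin' L with hN
  have hrelN : ∀ x, N (f x) = ((q ^ a : ℕ) : ℚ_[ℓ]) • f (N x) := by
    intro x
    rw [hN, hf, Matrix.toLin'_apply, Matrix.toLin'_apply, Matrix.toLin'_apply,
      Matrix.toLin'_apply, Matrix.mulVec_mulVec, hLV, Matrix.smul_mulVec, Matrix.mulVec_mulVec]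
  have hker : LinearMap.ker N ≤ (LinearMap.ker N).comap f := by
    intro x hx
    rw [Submodule.mem_comap, LinearMap.mem_ker, hrelN, LinearMap.mem_ker.1 hx, map_zero,
      smul_zero]
  have hqa0 : ((q ^ a : ℕ) : ℚ_[ℓ]) ≠ 0 := Nat.cast_ne_zero.2 (by omega)
  have him : LinearMap.range N ≤ (LinearMap.range N).comap f := by
    rintro _ ⟨x, rfl⟩
    rw [Submodule.mem_comap]
    refine ⟨((q ^ a : ℕ) : ℚ_[ℓ])⁻¹ • f x, ?_⟩
    rw [map_smul, hrelN, smul_smul, inv_mul_cancel₀ hqa0, one_smul]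
  have hkerE : LinearMap.ker N = invH V P H := by
    ext x
    rw [LinearMap.mem_ker, hN, Matrix.toLin'_apply, mem_invH]
    constructor
    · intro hx τ hτH hτ
      apply (hdom τ hτH hτ).1
      have h1 : (V τ₀ - 1) *ᵥ x = 0 := by
        have h2 : Ψ' * L = V τ₀ - 1 := by rw [hL2, ← mul_assoc, hΨ2, one_mul]
        rw [← h2, ← Matrix.mulVec_mulVec, hx, Matrix.mulVec_zero]
      rw [Matrix.sub_mulVec, Matrix.one_mulVec, sub_eq_zero] at h1
      exact h1
    · intro hx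
      rw [hL2, ← Matrix.mulVec_mulVec, Matrix.sub_mulVec, Matrix.one_mulVec, hx τ₀ hτ₀H hτ₀,
        sub_self, Matrix.mulVec_zero]
  -- the bounds
  have h1 : ∀ β ∈ rts e (f.restrict hker), ‖β‖ ^ 2 ≤ ((q : ℝ) ^ a) ^ w := by
    intro β hβ
    let b := Module.finBasis ℚ_[ℓ] (LinearMap.ker N)
    rw [rts_eq e b] at hβ
    have h2 : β ∈ spectrum ℂ ((LinearMap.toMatrix b b (f.restrict hker)).map e) := by
      rw [Matrix.mem_spectrum_iff_isRoot_charpoly]
      exact (mem_roots (Matrix.charpoly_monic _).ne_zero).1 hβ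
    obtain ⟨y, hy, hyβ, hyB⟩ := lift_eig e b (mul_colMat b hker) h2
    refine (hWB a ha h hh H hHn hH e β y hy).1 (fun τ hτH hτ => ?_) hyβ
    apply hyB
    intro x hx
    rw [hkerE] at hx
    exact hx τ hτH hτ
  have h2 : ∀ β ∈ rts e ((LinearMap.range N).mapQ _ f him), ((q : ℝ) ^ a) ^ w ≤ ‖β‖ ^ 2 := by
    intro β hβ
    obtain ⟨y, hy, hyβ, hyB⟩ := lift_row e him hβ
    refine (hWB a ha h hh H hHn hH e β y hy).2 (fun τ hτH hτ => ?_) hyβ
    apply hyB
    intro z hz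
    apply (hdom τ hτH hτ).2
    have h3 : z ᵥ* L = 0 := by
      ext j
      have h4 := hz (L *ᵥ (Pi.single j 1)) ⟨Pi.single j 1, by rw [hN, Matrix.toLin'_apply]⟩
      rw [Matrix.dotProduct_mulVec, dotProduct_single_one] at h4
      exact h4
    have h4 : z ᵥ* (V τ₀ - 1) = 0 := by
      have h5 : L * Ψ' = V τ₀ - 1 := by rw [hL1, mul_assoc, hΨ1, mul_one]
      rw [← h5, ← Matrix.vecMul_vecMul, h3, Matrix.zero_vecMul]
    rw [Matrix.vecMul_sub, Matrix.vecMul_one, sub_eq_zero] at h4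
    exact h4
  have hR : (0 : ℝ) < ((q : ℝ) ^ a) ^ w := by
    have : (0 : ℝ) < q := by
      have : 0 < q := by omega
      exact_mod_cast this
    positivity
  have hk := kappa e hqa hrelN hker him hR h1 h2
  -- the trace
  let b := Module.finBasis ℚ_[ℓ] (LinearMap.ker N)
  have htr : (V h * p).trace = LinearMap.trace _ _ (f.restrict hker) := by
    have h3 := Pool.Agent.R401.Tr4.trace_pow (e := p) (M := V h) (I := LinearMap.ker N)
      (fun x => by rw [hkerE]; exact hp x) (fun x hx => hp' x (by rwa [hkerE] at hx)) b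
      (A := LinearMap.toMatrix b b (f.restrict hker)) (by
        intro j
        have h4 := b.sum_repr (f.restrict hker (b j))
        have h5 := congrArg (Subtype.val) h4
        rw [Submodule.coe_sum] at h5
        simp only [Submodule.coe_smul] at h5
        simp only [LinearMap.toMatrix_apply]
        rw [h5]
        rfl) 1
    rw [pow_one, pow_one] at h3
    rw [← h3, LinearMap.trace_eq_matrix_trace _ b]
  rw [htr, hk]
  congr 1
  rw [rts, hf]
  congr 2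
  rw [← LinearMap.charpoly_toMatrix _ (Pi.basisFun ℚ_[ℓ] (Fin n))]
  congr 1
  exact LinearMap.toMatrix'_toLin' (V h)

end Pool.Agent.D0H32.EF
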