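import Mathlib
import Pool.Agent.D0H32.EF.Inv

/-!
# The local factor of a family with weight bounds and compatible traces
-/

set_option autoImplicit false
set_option linter.unusedSectionVars false
set_option maxHeartbeats 1000000

namespace Pool.Agent.D0H32.EF

open NumberField Filter Topology Pool.Agent.W569.FM Pool.Agent.W401.Cheb Matrix Module Polynomial
open Pool.Agent.R401.Tr5 Pool.Agent.R401.Tr9 Pool.Agent.R401.Tr4

variable {K : Type} [Field K] [NumberField K] {n : ℕ}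

/-- The characteristic polynomials of the elements of positive degree of the Weil group have
coefficients in `ℤ` and do not depend on `ℓ`. -/
def IntChar (V : ∀ (ℓ : ℕ) [Fact ℓ.Prime], GK K →* Matrix (Fin n) (Fin n) ℚ_[ℓ])
    (P : Ideal (OO K)) (q : ℕ) : Prop :=
  ∀ a : ℕ, 0 < a → ∀ h : GK K, FrobAt (q ^ a) P h⁻¹ → ∃ f : ℤ[X], ∀ (ℓ : ℕ) [Fact ℓ.Prime],
    (ℓ : OO K) ∉ P → (V ℓ h).charpoly = f.map (Int.castRingHom ℚ_[ℓ])

theorem frobAt_mul {P : Ideal (OO K)} {a b : ℕ} {σ τ : GK K} (hσ : FrobAt a P σ)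
    (hτ : FrobAt b P τ) : FrobAt (a * b) P (σ * τ) := by
  intro x
  have h1 := hσ (τ • x)
  have h2 : (τ • x) ^ a - (x ^ b) ^ a ∈ P := P.mem_of_dvd (sub_dvd_pow_sub_pow _ _ a) (hτ x)
  have h3 := P.add_mem h1 h2
  rw [mul_smul, mul_comm a b, pow_mul]
  have h4 : σ • τ • x - (τ • x) ^ a + ((τ • x) ^ a - (x ^ b) ^ a) = σ • τ • x - (x ^ b) ^ a := by
    ring
  rwa [h4] at h3

theorem frobAt_one {P : Ideal (OO K)} {τ : GK K} : FrobAt 1 P τ ↔ InInertia P τ := by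
  refine forall_congr' fun x => ?_
  rw [pow_one]

theorem frobAt_pow {P : Ideal (OO K)} {a : ℕ} {σ : GK K} (hσ : FrobAt a P σ) (k : ℕ) :
    FrobAt (a ^ k) P (σ ^ k) := by
  induction k with
  | zero =>
    rw [pow_zero, pow_zero, frobAt_one]
    exact (IG P).one_mem
  | succ k ih =>
    rw [pow_succ, pow_succ]
    exact frobAt_mul ih hσ

theorem algebraic_SS (f : ℚ[X]) (hf : f ≠ 0) (Q : ℕ) (R : ℝ) :
    IsAlgebraic ℚ (SS Q R (f.map (Rat.castHom ℂ)).roots) := by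
  have hroot : ∀ z ∈ (f.map (Rat.castHom ℂ)).roots, z ∈ integralClosure ℚ ℂ := by
    intro z hz
    have h1 : (f.map (Rat.castHom ℂ)).IsRoot z :=
      (mem_roots ((Polynomial.map_ne_zero_iff (Rat.castHom ℂ).injective).2 hf)).1 hz
    have h2 : IsAlgebraic ℚ z := by
      refine ⟨f, hf, ?_⟩
      rw [IsRoot.def, eval_map] at h1
      rw [aeval_def]
      have h3 : algebraMap ℚ ℂ = Rat.castHom ℂ := Subsingleton.elim _ _
      rw [h3]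
      exact h1
    exact h2.isIntegral
  have h1 : SS Q R (f.map (Rat.castHom ℂ)).roots ∈ integralClosure ℚ ℂ := by
    unfold SS
    refine Subalgebra.sub_mem _ ?_ (Subalgebra.mul_mem _ ?_ ?_)
    · exact Subalgebra.multiset_sum_mem _ fun z hz => hroot z (Multiset.mem_of_mem_filter hz)
    · exact natCast_mem _ Q
    · exact Subalgebra.multiset_sum_mem _ fun z hz => hroot z (Multiset.mem_of_mem_filter hz)
  exact IsIntegral.isAlgebraic h1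

section family

variable (V : ∀ (ℓ : ℕ) [Fact ℓ.Prime], GK K →* Matrix (Fin n) (Fin n) ℚ_[ℓ])
  (hV : ∀ (ℓ : ℕ) [Fact ℓ.Prime], Continuous (V ℓ)) {P : Ideal (OO K)} (hP : P.IsMaximal) {q : ℕ}
  (hq : 2 ≤ q) {σ : GK K} (hσ : FrobAt q P σ) {w : ℤ}
  (hWB : ∀ (ℓ : ℕ) [Fact ℓ.Prime], (ℓ : OO K) ∉ P → WB (V ℓ) P q w) (hI : IntChar V P q)

include hV hP hq hσ hWB hI in
/-- the traces on the invariants are rational and do not depend on `ℓ` -/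
theorem exists_value (a : ℕ) (ha : 0 < a) (h : GK K) (hh : FrobAt (q ^ a) P h⁻¹) :
    ∃ r : ℚ, ∀ (ℓ : ℕ) [Fact ℓ.Prime], (ℓ : OO K) ∉ P → ∀ H : Subgroup (GK K), H.Normal →
      IsOpen (H : Set (GK K)) → (∀ x ∈ H, Tendsto (fun k : ℕ => V ℓ x ^ (ℓ ^ k)) atTop (𝓝 1)) →
      (∀ τ ∈ H, InInertia P τ → IsNilpotent (V ℓ τ - 1)) →
      ∀ p : Matrix (Fin n) (Fin n) ℚ_[ℓ], (∀ x, p *ᵥ x ∈ invH (V ℓ) P H) →
        (∀ x ∈ invH (V ℓ) P H, p *ᵥ x = x) → (V ℓ h * p).trace = (r : ℚ_[ℓ]) := by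
  classical
  obtain ⟨f, hf⟩ := hI a ha h hh
  set s : ℂ := SS (q ^ a) (((q : ℝ) ^ a) ^ w) ((f.map (Int.castRingHom ℚ)).map (Rat.castHom ℂ)).roots
    with hs
  by_cases hex : ∃ r : ℚ, (r : ℂ) = s
  swap
  · refine ⟨0, ?_⟩
    intro ℓ _ hℓP H hHn hH hU hnil p hp hp'
    exfalso
    apply hex
    have hmon : f ≠ 0 := by
      rintro rfl
      have h1 := hf ℓ hℓP
      rw [Polynomial.map_zero] at h1
      exact (Matrix.charpoly_monic _).ne_zero h1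
    have hfne : f.map (Int.castRingHom ℚ) ≠ 0 :=
      (Polynomial.map_ne_zero_iff Int.cast_injective).2 hmon
    obtain ⟨r, hr, -⟩ := rational (z := (V ℓ h * p).trace) (s := s) (algebraic_SS _ hfne _ _)
      (fun e => by
        rw [trace_invH (V ℓ) (hV ℓ) hP hℓP hq (hWB ℓ hℓP) H hH hU hnil ha hh e p hp hp', hf ℓ hℓP,
          hs, Polynomial.map_map, Polynomial.map_map]
        congr 3
        exact Subsingleton.elim _ _)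
    exact ⟨r, hr⟩
  obtain ⟨r, hr⟩ := hex
  refine ⟨r, ?_⟩
  intro ℓ _ hℓP H hHn hH hU hnil p hp hp'
  obtain ⟨i⟩ := Pool.Agent.R401.Iso.exists_iso ℓ
  let e : ℚ_[ℓ] →+* ℂ := (i : PadicAlgCl ℓ →+* ℂ).comp (algebraMap ℚ_[ℓ] (PadicAlgCl ℓ))
  apply e.injective
  rw [trace_invH (V ℓ) (hV ℓ) hP hℓP hq (hWB ℓ hℓP) H hH hU hnil ha hh e p hp hp', hf ℓ hℓP,
    map_ratCast, hr, hs, Polynomial.map_map, Polynomial.map_map]
  congr 3
  exact Subsingleton.elim _ _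

/-- the projector -/
noncomputable def pr {ℓ : ℕ} [Fact ℓ.Prime] (ρ : GK K →* Matrix (Fin n) (Fin n) ℚ_[ℓ])
    (P : Ideal (OO K)) (H : Subgroup (GK K)) (p : Matrix (Fin n) (Fin n) ℚ_[ℓ]) :
    Matrix (Fin n) (Fin n) ℚ_[ℓ] :=
  ((Nat.card (IG P ⧸ H.subgroupOf (IG P)) : ℚ_[ℓ])⁻¹) •
    ∑ᶠ c : IG P ⧸ H.subgroupOf (IG P), ρ ((c.out : IG P) : GK K) * p

theorem conj_inertia {P : Ideal (OO K)} (hP : P.IsMaximal) {τ σ : GK K} {q : ℕ} (hq : 1 ≤ q)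
    (hτ : InInertia P τ) (hσ : FrobAt q P σ) : InInertia P (σ * τ * σ⁻¹) := by
  intro y
  have h2 : (σ * τ * σ⁻¹) • y - y = σ • (τ • (σ⁻¹ • y) - σ⁻¹ • y) := by
    rw [smul_sub, smul_inv_smul, mul_smul, mul_smul]
  rw [h2]
  have h3 := hτ (σ⁻¹ • y)
  set z := τ • (σ⁻¹ • y) - σ⁻¹ • y
  have h4 : σ • z = (σ • z - z ^ q) + z ^ q := by abel
  rw [h4]
  exact P.add_mem (hσ z) (P.pow_mem_of_mem h3 q (by omega))

section one

variable {ℓ : ℕ} [Fact ℓ.Prime] (ρ : GK K →* Matrix (Fin n) (Fin n) ℚ_[ℓ]) {H : Subgroup (GK K)}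
  (hHn : H.Normal) (hH : IsOpen (H : Set (GK K))) {p : Matrix (Fin n) (Fin n) ℚ_[ℓ]}
  (hp : ∀ x, p *ᵥ x ∈ invH ρ P H) (hp' : ∀ x ∈ invH ρ P H, p *ᵥ x = x)

include hp in
theorem mul_p {a b : IG P} (h : (a : IG P ⧸ H.subgroupOf (IG P)) = b) :
    ρ (a : GK K) * p = ρ (b : GK K) * p := by
  have h1 := QuotientGroup.eq.1 h
  rw [Subgroup.mem_subgroupOf] at h1
  have h3 : (b : GK K) = (a : GK K) * ((a⁻¹ * b : IG P) : GK K) := by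
    rw [Subgroup.coe_mul, Subgroup.coe_inv, mul_inv_cancel_left]
  apply Matrix.toLin'.injective
  refine LinearMap.ext fun x => ?_
  rw [Matrix.toLin'_apply, Matrix.toLin'_apply, ← Matrix.mulVec_mulVec, ← Matrix.mulVec_mulVec,
    h3, map_mul, ← Matrix.mulVec_mulVec, hp x _ h1 (a⁻¹ * b).2]

include hH hp in
theorem mul_pr {τ : GK K} (hτ : InInertia P τ) : ρ τ * pr ρ P H p = pr ρ P H p := by
  classical
  have := Pool.Agent.R401.Tr6.finQ H hH (P := P)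
  have hft : Fintype (IG P ⧸ H.subgroupOf (IG P)) := Fintype.ofFinite _
  unfold pr
  rw [mul_smul_comm, finsum_eq_sum_of_fintype, Finset.mul_sum]
  congr 1
  let t : IG P := ⟨τ, hτ⟩
  conv_rhs => rw [← Equiv.sum_comp (MulAction.toPerm t : Equiv.Perm (IG P ⧸ H.subgroupOf (IG P)))]
  refine Finset.sum_congr rfl fun c _ => ?_
  rw [← mul_assoc, ← map_mul]
  have h1 : τ * ((c.out : IG P) : GK K) = ((t * c.out : IG P) : GK K) := rfl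
  rw [h1]
  apply mul_p ρ hp
  rw [MulAction.toPerm_apply]
  have h2 : (((t • c).out : IG P) : IG P ⧸ H.subgroupOf (IG P)) = t • c := Quotient.out_eq _
  rw [h2]
  conv_rhs => rw [← Quotient.out_eq c]
  rfl

include hH hp' in
theorem pr_fix (x : Fin n → ℚ_[ℓ]) (hx : ∀ τ, InInertia P τ → ρ τ *ᵥ x = x) :
    pr ρ P H p *ᵥ x = x := by
  classical
  have := Pool.Agent.R401.Tr6.finQ H hH (P := P)
  have hft : Fintype (IG P ⧸ H.subgroupOf (IG P)) := Fintype.ofFinite _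
  unfold pr
  rw [Matrix.smul_mulVec, finsum_eq_sum_of_fintype, Matrix.sum_mulVec]
  have h1 : ∀ c : IG P ⧸ H.subgroupOf (IG P), (ρ ((c.out : IG P) : GK K) * p) *ᵥ x = x := by
    intro c
    rw [← Matrix.mulVec_mulVec, hp' x fun τ _ hτ => hx τ hτ]
    exact hx _ c.out.2
  rw [Finset.sum_congr rfl fun c _ => h1 c, Finset.sum_const, Finset.card_univ,
    Nat.card_eq_fintype_card, ← Nat.cast_smul_eq_nsmul ℚ_[ℓ], smul_smul, inv_mul_cancel₀, one_smul]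
  exact_mod_cast Fintype.card_ne_zero

include hH in
theorem trace_pr (g : GK K) (k : ℕ) (r : GK K → ℚ)
    (hr : ∀ t : IG P, (ρ (g ^ k * (t : GK K)) * p).trace = (r (g ^ k * (t : GK K)) : ℚ_[ℓ])) :
    (ρ g ^ k * pr ρ P H p).trace = (((Nat.card (IG P ⧸ H.subgroupOf (IG P)) : ℚ)⁻¹ *
      ∑ᶠ c : IG P ⧸ H.subgroupOf (IG P), r (g ^ k * ((c.out : IG P) : GK K)) : ℚ) : ℚ_[ℓ]) := by
  classical
  have := Pool.Agent.R401.Tr6.finQ H hH (P := P)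
  have hft : Fintype (IG P ⧸ H.subgroupOf (IG P)) := Fintype.ofFinite _
  unfold pr
  rw [finsum_eq_sum_of_fintype, finsum_eq_sum_of_fintype, mul_smul_comm, Matrix.trace_smul,
    Finset.mul_sum, Matrix.trace_sum, smul_eq_mul]
  have h1 : ∀ c : IG P ⧸ H.subgroupOf (IG P),
      (ρ g ^ k * (ρ ((c.out : IG P) : GK K) * p)).trace =
      (r (g ^ k * ((c.out : IG P) : GK K)) : ℚ_[ℓ]) := by
    intro c
    rw [← mul_assoc, ← map_pow, ← map_mul, hr]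
  rw [Finset.sum_congr rfl fun c _ => h1 c]
  push_cast
  ring

end one

theorem exists_proj {ℓ : ℕ} [Fact ℓ.Prime] (E : Submodule ℚ_[ℓ] (Fin n → ℚ_[ℓ])) :
    ∃ p : Matrix (Fin n) (Fin n) ℚ_[ℓ], (∀ x, p *ᵥ x ∈ E) ∧ ∀ x ∈ E, p *ᵥ x = x := by
  obtain ⟨E', hE'⟩ := E.exists_isCompl
  obtain ⟨g, hg⟩ := LinearMap.exists_leftInverse_of_injective E.subtype E.ker_subtype
  refine ⟨LinearMap.toMatrix' (E.subtype ∘ₗ g), ?_, ?_⟩
  · intro x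
    have h1 : LinearMap.toMatrix' (E.subtype ∘ₗ g) *ᵥ x = (E.subtype ∘ₗ g) x := by
      rw [← Matrix.toLin'_apply, Matrix.toLin'_toMatrix']
    rw [h1]
    exact (g x).2
  · intro x hx
    have h1 : LinearMap.toMatrix' (E.subtype ∘ₗ g) *ᵥ x = (E.subtype ∘ₗ g) x := by
      rw [← Matrix.toLin'_apply, Matrix.toLin'_toMatrix']
    rw [h1]
    have h2 := LinearMap.congr_fun hg ⟨x, hx⟩
    exact congrArg Subtype.val h2

include hV hP hq hσ hWB hI in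
/-- **The local factor.** -/
theorem loc (I : ∀ (ℓ : ℕ) [Fact ℓ.Prime], Submodule ℚ_[ℓ] (Fin n → ℚ_[ℓ]))
    (hIn : ∀ (ℓ : ℕ) [Fact ℓ.Prime] (x : Fin n → ℚ_[ℓ]),
      x ∈ I ℓ ↔ ∀ τ, InInertia P τ → V ℓ τ *ᵥ x = x) :
    ∃ f : ℤ[X], ∀ (ℓ : ℕ) [Fact ℓ.Prime], (ℓ : OO K) ∉ P →
      ∀ (m : ℕ) (b : Basis (Fin m) ℚ_[ℓ] (I ℓ)) (A : Matrix (Fin m) (Fin m) ℚ_[ℓ]),
        (∀ j, V ℓ σ⁻¹ *ᵥ (b j : Fin n → ℚ_[ℓ]) = ∑ i, A i j • (b i : Fin n → ℚ_[ℓ])) →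
        A.charpolyRev = f.map (Int.castRingHom ℚ_[ℓ]) := by
  classical
  -- the values
  have hval : ∀ (a : ℕ) (h : GK K), ∃ r : ℚ, 0 < a → FrobAt (q ^ a) P h⁻¹ →
      ∀ (ℓ : ℕ) [Fact ℓ.Prime], (ℓ : OO K) ∉ P → ∀ H : Subgroup (GK K), H.Normal →
      IsOpen (H : Set (GK K)) → (∀ x ∈ H, Tendsto (fun k : ℕ => V ℓ x ^ (ℓ ^ k)) atTop (𝓝 1)) →
      (∀ τ ∈ H, InInertia P τ → IsNilpotent (V ℓ τ - 1)) →
      ∀ p : Matrix (Fin n) (Fin n) ℚ_[ℓ], (∀ x, p *ᵥ x ∈ invH (V ℓ) P H) →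
        (∀ x ∈ invH (V ℓ) P H, p *ᵥ x = x) → (V ℓ h * p).trace = (r : ℚ_[ℓ]) := by
    intro a h
    by_cases hah : 0 < a ∧ FrobAt (q ^ a) P h⁻¹
    · obtain ⟨r, hr⟩ := exists_value V hV hP hq hσ hWB hI a hah.1 h hah.2
      exact ⟨r, fun _ _ => hr⟩
    · exact ⟨0, fun h1 h2 => absurd ⟨h1, h2⟩ hah⟩
  choose r hr using hval
  -- degrees
  have hdeg : ∀ (k : ℕ) (t : IG P), FrobAt (q ^ k) P (σ⁻¹ ^ k * (t : GK K))⁻¹ := by
    intro k t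
    have h1 : (σ⁻¹ ^ k * (t : GK K))⁻¹ = ((t⁻¹ : IG P) : GK K) * σ ^ k := by
      rw [_root_.mul_inv_rev, inv_pow, inv_inv]
      rfl
    rw [h1, ← one_mul (q ^ k)]
    exact frobAt_mul (frobAt_one.2 (t⁻¹).2) (frobAt_pow hσ k)
  -- the traces
  have htr : ∀ (ℓ : ℕ) [Fact ℓ.Prime], (ℓ : OO K) ∉ P → ∃ H₀ : Subgroup (GK K), H₀.Normal ∧
      IsOpen (H₀ : Set (GK K)) ∧ ∀ H ≤ H₀, H.Normal → IsOpen (H : Set (GK K)) →
      ∀ (m : ℕ) (b : Basis (Fin m) ℚ_[ℓ] (I ℓ)) (A : Matrix (Fin m) (Fin m) ℚ_[ℓ]),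
        (∀ j, V ℓ σ⁻¹ *ᵥ (b j : Fin n → ℚ_[ℓ]) = ∑ i, A i j • (b i : Fin n → ℚ_[ℓ])) →
        ∀ k, 0 < k → (A ^ k).trace = (((Nat.card (IG P ⧸ H.subgroupOf (IG P)) : ℚ)⁻¹ *
          ∑ᶠ c : IG P ⧸ H.subgroupOf (IG P), r k (σ⁻¹ ^ k * ((c.out : IG P) : GK K)) : ℚ) :
            ℚ_[ℓ]) := by
    intro ℓ _ hℓP
    obtain ⟨H₀, hH₀n, hH₀o, hU, hnil⟩ := exists_unip (V ℓ) (hV ℓ) hP hℓP hq hσ
    refine ⟨H₀, hH₀n, hH₀o, ?_⟩
    intro H hle hHn hH m b A hA k hk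
    obtain ⟨p, hp, hp'⟩ := exists_proj (invH (V ℓ) P H)
    rw [trace_pow (e := pr (V ℓ) P H p) (I := I ℓ) (fun x => by
        rw [hIn]
        intro τ hτ
        rw [Matrix.mulVec_mulVec, mul_pr (V ℓ) hH hp hτ]) (fun x hx => by
        rw [hIn] at hx
        exact pr_fix (V ℓ) hH hp' x hx) b hA]
    refine trace_pr (V ℓ) hH σ⁻¹ k (r k) fun t => ?_
    exact hr k _ hk (hdeg k t) ℓ hℓP H hHn hH (fun x hx => hU x (hle hx))
      (fun τ hτ hτi => hnil τ (hle hτ) hτi) p hp hp'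
  -- a reference prime
  obtain ⟨ℓ₀, hℓ₀, hℓ₀P⟩ := Pool.Agent.R401.Tr6.exists_prime_not_mem hP
  have : Fact ℓ₀.Prime := ⟨hℓ₀⟩
  have hstab : ∀ (ℓ : ℕ) [Fact ℓ.Prime], ∀ x ∈ I ℓ, V ℓ σ⁻¹ *ᵥ x ∈ I ℓ := by
    intro ℓ _ x hx
    rw [hIn] at hx ⊢
    intro τ hτ
    have h1 := conj_inertia hP (by omega) hτ hσ
    have h2 : V ℓ τ * V ℓ σ⁻¹ = V ℓ σ⁻¹ * V ℓ (σ * τ * σ⁻¹) := by
      rw [← map_mul, ← map_mul]
      congr 1
      group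
    rw [Matrix.mulVec_mulVec, h2, ← Matrix.mulVec_mulVec, hx _ h1]
  obtain ⟨m₀, b₀, A₀, hA₀⟩ : ∃ (m : ℕ) (b : Basis (Fin m) ℚ_[ℓ₀] (I ℓ₀))
      (A : Matrix (Fin m) (Fin m) ℚ_[ℓ₀]),
      ∀ j, V ℓ₀ σ⁻¹ *ᵥ (b j : Fin n → ℚ_[ℓ₀]) = ∑ i, A i j • (b i : Fin n → ℚ_[ℓ₀]) := by
    let b₀ : Basis (Fin (finrank ℚ_[ℓ₀] (I ℓ₀))) ℚ_[ℓ₀] (I ℓ₀) := finBasis _ _
    let E₀ : I ℓ₀ →ₗ[ℚ_[ℓ₀]] I ℓ₀ := (Matrix.toLin' (V ℓ₀ σ⁻¹)).restrict fun x hx => by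
      rw [Matrix.toLin'_apply]
      exact hstab ℓ₀ x hx
    refine ⟨_, b₀, LinearMap.toMatrix b₀ b₀ E₀, fun j => ?_⟩
    have h1 : E₀ (b₀ j) = ∑ i, LinearMap.toMatrix b₀ b₀ E₀ i j • b₀ i := by
      simp only [LinearMap.toMatrix_apply]
      exact (b₀.sum_repr _).symm
    have h2 := congrArg (Subtype.val) h1
    rw [Submodule.coe_sum] at h2
    simp only [Submodule.coe_smul] at h2
    rw [← h2]
    rfl
  obtain ⟨H₀, hH₀n, hH₀o, htr₀⟩ := htr ℓ₀ hℓ₀P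
  set s : ℕ → ℚ := fun k => (Nat.card (IG P ⧸ H₀.subgroupOf (IG P)) : ℚ)⁻¹ *
    ∑ᶠ c : IG P ⧸ H₀.subgroupOf (IG P), r k (σ⁻¹ ^ k * ((c.out : IG P) : GK K)) with hs
  have hcoeff : ∀ (ℓ : ℕ) [Fact ℓ.Prime], (ℓ : OO K) ∉ P →
      ∀ (m : ℕ) (b : Basis (Fin m) ℚ_[ℓ] (I ℓ)) (A : Matrix (Fin m) (Fin m) ℚ_[ℓ]),
        (∀ j, V ℓ σ⁻¹ *ᵥ (b j : Fin n → ℚ_[ℓ]) = ∑ i, A i j • (b i : Fin n → ℚ_[ℓ])) →
        ∀ k, A.charpolyRev.coeff k = (cf s k : ℚ_[ℓ]) := by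
    intro ℓ _ hℓP m b A hA k
    apply coeff_eq
    intro k
    obtain ⟨H₁, hH₁n, hH₁o, htr₁⟩ := htr ℓ hℓP
    have hn : (H₀ ⊓ H₁).Normal := inferInstance
    have ho : IsOpen ((H₀ ⊓ H₁ : Subgroup (GK K)) : Set (GK K)) := by
      rw [Subgroup.coe_inf]
      exact hH₀o.inter hH₁o
    rw [htr₁ _ inf_le_right hn ho m b A hA (k + 1) (Nat.succ_pos k)]
    have h1 := htr₀ _ inf_le_left hn ho m₀ b₀ A₀ hA₀ (k + 1) (Nat.succ_pos k)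
    have h2 := htr₀ _ le_rfl hH₀n hH₀o m₀ b₀ A₀ hA₀ (k + 1) (Nat.succ_pos k)
    rw [h1] at h2
    have h3 := Rat.cast_injective h2
    rw [h3]
  -- integrality
  obtain ⟨F, hF⟩ := hI 1 one_pos σ⁻¹ (by rw [pow_one, inv_inv]; exact hσ)
  have hFm : F.Monic := by
    have h1 := hF ℓ₀ hℓ₀P
    have h2 : (F.map (Int.castRingHom ℚ_[ℓ₀])).Monic := by
      rw [← h1]
      exact Matrix.charpoly_monic _
    exact Polynomial.monic_of_injective Int.cast_injective h2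
  have hF0 : aeval (V ℓ₀ σ⁻¹) F = 0 := by
    have h1 := Matrix.aeval_self_charpoly (V ℓ₀ σ⁻¹)
    rw [hF ℓ₀ hℓ₀P, aeval_def, Polynomial.eval₂_map] at h1
    rw [aeval_def, ← h1]
    congr 1
  have hint : ∀ k, ∃ c : ℤ, cf s k = c := by
    intro k
    have h1 := hcoeff ℓ₀ hℓ₀P m₀ b₀ A₀ hA₀ k
    have h2 := coeff_charpoly_integral A₀ F hFm (aeval_eq_zero b₀ hA₀ F hF0)
    have h3 : IsIntegral ℤ (A₀.charpolyRev.coeff k) := by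
      rw [← Matrix.reverse_charpoly, coeff_reverse]
      exact h2 _
    rw [h1] at h3
    have h4 : IsIntegral ℤ (cf s k) := by
      have h5 : ((cf s k : ℚ) : ℚ_[ℓ₀]) = algebraMap ℚ ℚ_[ℓ₀] (cf s k) := by simp
      rw [h5] at h3
      exact (isIntegral_algebraMap_iff (algebraMap ℚ ℚ_[ℓ₀]).injective).1 h3
    obtain ⟨c, hc⟩ := IsIntegrallyClosed.isIntegral_iff.1 h4
    exact ⟨c, hc.symm⟩
  have hzero : ∀ k, m₀ < k → cf s k = 0 := by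
    intro k hk
    have h1 := hcoeff ℓ₀ hℓ₀P m₀ b₀ A₀ hA₀ k
    rw [coeff_eq_zero_of_natDegree_lt (lt_of_le_of_lt (natDegree_charpolyRev A₀) hk)] at h1
    exact_mod_cast h1.symm
  choose c hc using hint
  refine ⟨∑ k ∈ Finset.range (m₀ + 1), C (c k) * X ^ k, ?_⟩
  intro ℓ _ hℓP m b A hA
  refine Polynomial.ext fun k => ?_
  rw [hcoeff ℓ hℓP m b A hA k, coeff_map, finsetSum_coeff]
  simp only [coeff_C_mul, coeff_X_pow, mul_ite, mul_one, mul_zero]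
  rw [Finset.sum_ite_eq, eq_intCast]
  split_ifs with hk
  · rw [hc]
    norm_cast
  · rw [Finset.mem_range] at hk
    rw [hzero k (by omega)]
    norm_cast

end family

end Pool.Agent.D0H32.EF
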