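import Mathlib
import Pool.Agent.D0H32.EF.Loc

/-!
# Transfer of the weight bounds and of the characteristic polynomials
-/

set_option autoImplicit false
set_option linter.unusedSectionVars false
set_option maxHeartbeats 1000000

namespace Pool.Agent.D0H32.EF

open NumberField Filter Topology Pool.Agent.W569.FM Pool.Agent.W401.Cheb Matrix Module Polynomial
open Pool.Agent.R401.Tr5 Pool.Agent.R401.Tr9 Pool.Agent.R401.Tr4 Pool.Agent.R401.Tr10
open Pool.Agent.R401.Sup Pool.Agent.R401.Sup3 IsDedekindDomain Pool.Agent.R401.Img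

variable {K : Type} [Field K] [NumberField K] {n m : ℕ}

theorem conj_inertia' {P : Ideal (OO K)} (hP : P.IsMaximal) {τ σ : GK K} {q : ℕ}
    (hτ : InInertia P τ) (hσ : FrobAt q P σ) : InInertia P (σ⁻¹ * τ * σ) := by
  have hinv : ∀ x ∈ P, σ⁻¹ • x ∈ P := by
    intro x hx
    have h1 := hσ (σ⁻¹ • x)
    rw [smul_inv_smul] at h1
    have h2 : (σ⁻¹ • x) ^ q ∈ P := by
      have h3 := P.sub_mem hx h1
      rwa [sub_sub_cancel] at h3
    exact hP.isPrime.mem_of_pow_mem q h2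
  intro y
  have h2 : (σ⁻¹ * τ * σ) • y - y = σ⁻¹ • (τ • (σ • y) - σ • y) := by
    rw [smul_sub, inv_smul_smul, mul_smul, mul_smul]
  rw [h2]
  exact hinv _ (hτ (σ • y))

section one

variable {ℓ : ℕ} [Fact ℓ.Prime] (V : GK K →* Matrix (Fin n) (Fin n) ℚ_[ℓ])
  (W : GK K →* Matrix (Fin m) (Fin m) ℚ_[ℓ]) (u : ℤ)
  (φ : GK K → ℚ) (U : Subgroup (GK K)) (hUn : U.Normal) (hUo : IsOpen (U : Set (GK K)))
  (hU : ∀ x ∈ U, ∀ y, φ (x * y) = φ y)
  (hφ : ∀ y : GK K, cyc K ℓ ℚ_[ℓ] y ^ u * ((V y).trace - (W y).trace) = (φ y : ℚ_[ℓ]))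
  {P : Ideal (OO K)} (hP : P.IsMaximal) {q : ℕ} (hq : 2 ≤ q)
  (hℓP : (ℓ : OO K) ∉ P) {w : ℤ} (hw : w = 2 * u ∨ ∀ y, φ y = 0)

include hφ in
theorem phi_one' : (φ 1 : ℚ_[ℓ]) = n - m := by
  rw [← hφ 1, map_one, _root_.one_zpow, one_mul, map_one, map_one, Matrix.trace_one,
    Matrix.trace_one, Fintype.card_fin, Fintype.card_fin]

/-- the character -/
noncomputable def ch (ℓ : ℕ) [Fact ℓ.Prime] (u : ℤ) : GK K →* ℚ_[ℓ] where
  toFun y := cyc K ℓ ℚ_[ℓ] y ^ (-u)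
  map_one' := by rw [map_one, _root_.one_zpow]
  map_mul' a b := by rw [map_mul, mul_zpow]

theorem ch_apply (u : ℤ) (y : GK K) : ch (K := K) ℓ u y = cyc K ℓ ℚ_[ℓ] y ^ (-u) := rfl

include hφ in
theorem tr_eq (y : GK K) : (V y).trace = (W y).trace + ch ℓ u y * (φ y : ℚ_[ℓ]) := by
  have h0 : cyc K ℓ ℚ_[ℓ] y ^ u ≠ 0 := zpow_ne_zero _ (c_ne _ y)
  rw [← hφ, ch_apply, _root_.zpow_neg, ← mul_assoc, inv_mul_cancel₀ h0, one_mul]
  ring

include hU hφ in
theorem tr_eq_on (y : GK K) (hy : y ∈ U) : (V y).trace = (W y).trace +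
    ((n : ℚ_[ℓ]) - m) * ch ℓ u y := by
  have h1 : φ y = φ 1 := by
    have h2 := hU y hy 1
    rwa [mul_one] at h2
  rw [tr_eq V W u φ hφ, h1, phi_one' V W u φ hφ, mul_comm]

include hP hℓP in
theorem ch_frob {a : ℕ} {h : GK K} (hh : FrobAt (q ^ a) P h⁻¹) :
    ch ℓ u h = ((q : ℚ_[ℓ]) ^ a) ^ u := by
  have h1 := cyc_sigma (ℓ := ℓ) hP hh hℓP
  rw [ch_apply, _root_.zpow_neg, ← _root_.inv_zpow, ← c_inv, h1]
  push_cast
  rfl

include hUn hUo hU hφ hP hq hℓP hw in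
/-- **Transfer of the weight bounds.** -/
theorem transfer_WB (hss : SemiOn ⊤ (lin W)) (hWB : WB W P q w) : WB V P q w := by
  classical
  intro a ha h hh H' hH'n hH'o e α x hx
  have hfin : Finite (GK K ⧸ U) := Subgroup.quotient_finite_of_isOpen _ hUo
  have hfi : U.FiniteIndex := Subgroup.finiteIndex_of_finite_quotient
  have hM : 0 < U.index := Nat.pos_of_ne_zero hfi.index_ne_zero
  set M := U.index with hMdef
  set H : Subgroup (GK K) := H' ⊓ U with hH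
  have hHn : H.Normal := inferInstance
  have hHo : IsOpen (H : Set (GK K)) := by
    rw [hH, Subgroup.coe_inf]
    exact hH'o.inter hUo
  set J : Set (GK K) := {τ | τ ∈ H ∧ InInertia P τ} with hJ
  have hJU : ∀ τ ∈ J, τ ∈ U := fun τ hτ => hτ.1.2
  have hqpos : (0 : ℝ) < q := by
    have : 0 < q := by omega
    exact_mod_cast this
  have hqa : 1 ≤ q ^ a := Nat.one_le_pow _ _ (by omega)
  set R : ℝ := ((q : ℝ) ^ a) ^ w with hR
  have hR0 : 0 < R := by positivity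
  have hqM : FrobAt (q ^ (a * M)) P (h ^ M)⁻¹ := by
    rw [← inv_pow, pow_mul]
    exact frobAt_pow hh M
  -- the value of the character
  have hchar : ((n : ℚ_[ℓ]) - m) ≠ 0 → ‖e (ch ℓ u (h ^ M))‖ ^ 2 = R ^ M := by
    intro hD
    have hw2 : w = 2 * u := by
      rcases hw with h1 | h1
      · exact h1
      · exfalso
        apply hD
        rw [← phi_one' V W u φ hφ, h1, Rat.cast_zero]
    rw [ch_frob u hP hℓP hqM, map_zpow₀, map_pow, map_natCast, norm_zpow, norm_pow,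
      Complex.norm_natCast, hR, hw2]
    rw [← zpow_natCast ((q : ℝ)) (a * M), ← _root_.zpow_mul, ← zpow_natCast _ 2, ← _root_.zpow_mul,
      ← zpow_natCast ((q : ℝ)) a, ← _root_.zpow_mul, ← zpow_natCast _ M, ← _root_.zpow_mul]
    congr 1
    push_cast
    ring
  have hpow : ∀ {z z' : ℂ}, z' ^ M = z ^ M → (‖z'‖ ^ 2 = ‖z‖ ^ 2) := by
    intro z z' h1
    have h2 : ‖z'‖ ^ M = ‖z‖ ^ M := by rw [← norm_pow, ← norm_pow, h1]
    have h3 := (pow_left_inj₀ (norm_nonneg _) (norm_nonneg _) hM.ne').1 h2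
    rw [h3]
  have heq : ((n : ℚ_[ℓ]) - m) ≠ 0 → α ^ M = e (ch ℓ u (h ^ M)) → ‖α‖ ^ 2 = R := by
    intro hD h1
    have h2 : (‖α‖ ^ 2) ^ M = R ^ M := by
      rw [← hchar hD, ← h1, norm_pow, ← pow_mul, ← pow_mul, mul_comm]
    exact (pow_left_inj₀ (by positivity) hR0.le hM.ne').1 h2
  constructor
  · intro hxJ hxα
    rcases transfer e V W U (clifford hss U) (ch ℓ u) ((n : ℚ_[ℓ]) - m)
      (tr_eq_on V W u φ U hU hφ) hM (Subgroup.pow_index_mem U h) J hJU (by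
        intro τ hτ
        refine ⟨?_, ?_⟩
        · have h1 := hHn.conj_mem τ hτ.1 h⁻¹
          rwa [inv_inv] at h1
        · have h1 := conj_inertia hP hqa hτ.2 hh
          rwa [inv_inv] at h1) hx (fun τ hτ => hxJ τ hτ.1.1 hτ.2) hxα with ⟨hD, h1⟩ | h1
    · exact (heq hD h1).le
    · obtain ⟨α', y, hα', hy, hyJ, hyα⟩ := h1
      rw [← hpow hα']
      exact (hWB a ha h hh H hHn hHo e α' y hy).1 (fun τ hτ hτi => hyJ τ ⟨hτ, hτi⟩) hyα
  · intro hxJ hxα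
    have htrd : ∀ y ∈ U, (dl V y).trace = (dl W y).trace +
        ((n : ℚ_[ℓ]) - m) * ch ℓ (-u) y := by
      intro y hy
      rw [dl_apply, dl_apply, Matrix.trace_transpose, Matrix.trace_transpose,
        tr_eq_on V W u φ U hU hφ _ (U.inv_mem hy), ch_apply, ch_apply, c_inv, _root_.inv_zpow,
        _root_.zpow_neg, neg_neg, inv_inv]
    have hxd : ∀ (g : GK K), (dl V g⁻¹).map e *ᵥ x = x ᵥ* (V g).map e := by
      intro g
      rw [dl_apply, inv_inv, ← Matrix.mulVec_transpose, Matrix.transpose_map]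
    have hJinv : ∀ τ ∈ J, τ⁻¹ ∈ J := fun τ hτ => ⟨H.inv_mem hτ.1, (IG P).inv_mem hτ.2⟩
    rcases transfer e (dl V) (dl W) U (clifford (semiOn_dl hss) U) (ch ℓ (-u))
      ((n : ℚ_[ℓ]) - m) htrd (h := h⁻¹) hM (Subgroup.pow_index_mem U h⁻¹) J hJU (by
        intro τ hτ
        rw [inv_inv]
        refine ⟨hHn.conj_mem τ hτ.1 h, ?_⟩
        have h1 := conj_inertia' hP hτ.2 hh
        rwa [inv_inv] at h1) hx (fun τ hτ => by
          have h1 := hxd τ⁻¹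
          rw [inv_inv] at h1
          rw [h1]
          exact hxJ _ (hJinv τ hτ).1.1 (hJinv τ hτ).2) (by rw [hxd]; exact hxα) with ⟨hD, h1⟩ | h1
    · refine (heq hD ?_).ge
      rw [h1, inv_pow, ch_apply, ch_apply, c_inv, _root_.inv_zpow, neg_neg, _root_.zpow_neg]
    · obtain ⟨α', y, hα', hy, hyJ, hyα⟩ := h1
      have hyd : ∀ (g : GK K), (dl W g⁻¹).map e *ᵥ y = y ᵥ* (W g).map e := by
        intro g
        rw [dl_apply, inv_inv, ← Matrix.mulVec_transpose, Matrix.transpose_map]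
      rw [← hpow hα']
      refine (hWB a ha h hh H hHn hHo e α' y hy).2 (fun τ hτ hτi => ?_) ?_
      · have h1 := hyJ τ⁻¹ (hJinv τ ⟨hτ, hτi⟩)
        rwa [hyd] at h1
      · rw [hyd] at hyα
        exact hyα

end one

/-- rational characteristic polynomials -/
theorem rat_char {P : Ideal (OO K)} (A : ∀ (ℓ : ℕ) [Fact ℓ.Prime], Matrix (Fin n) (Fin n) ℚ_[ℓ])
    (t : ℕ → ℚ) (ht : ∀ (ℓ : ℕ) [Fact ℓ.Prime], (ℓ : OO K) ∉ P → ∀ k,
      (A ℓ ^ (k + 1)).trace = (t (k + 1) : ℚ_[ℓ])) :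
    ∀ (ℓ : ℕ) [Fact ℓ.Prime], (ℓ : OO K) ∉ P → ∀ i, (A ℓ).charpoly.coeff i =
      ((if i ≤ n then cf t (n - i) else 0 : ℚ) : ℚ_[ℓ]) := by
  intro ℓ _ hℓP i
  split_ifs with hi
  · rw [← coeff_eq (A ℓ) t (ht ℓ hℓP), ← Matrix.reverse_charpoly, coeff_reverse,
      Matrix.charpoly_natDegree_eq_dim, Fintype.card_fin, revAt_le (Nat.sub_le n i),
      Nat.sub_sub_self hi]
  · rw [Rat.cast_zero]
    apply coeff_eq_zero_of_natDegree_lt
    rw [Matrix.charpoly_natDegree_eq_dim, Fintype.card_fin]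
    omega

/-- the powers of a matrix with an integral characteristic polynomial -/
theorem trace_int {ℓ : ℕ} [Fact ℓ.Prime] {A : Matrix (Fin m) (Fin m) ℚ_[ℓ]} {f : ℤ[X]}
    (hf : A.charpoly = f.map (Int.castRingHom ℚ_[ℓ])) (k : ℕ) :
    (A ^ (k + 1)).trace = (tn (fun i => ((f.map (Int.castRingHom ℚ)).coeff (revAt m i))) k : ℚ_[ℓ]) := by
  refine trace_eq_tn A _ (coeff_rev A (f.map (Int.castRingHom ℚ)) ?_) k
  rw [hf, Polynomial.map_map]
  congr 1

section two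

variable (V : ∀ (ℓ : ℕ) [Fact ℓ.Prime], GK K →* Matrix (Fin n) (Fin n) ℚ_[ℓ])
  (W : ∀ (ℓ : ℕ) [Fact ℓ.Prime], GK K →* Matrix (Fin m) (Fin m) ℚ_[ℓ]) (u : ℤ)
  (φ : GK K → ℚ) (U : Subgroup (GK K)) (hUn : U.Normal) (hUo : IsOpen (U : Set (GK K)))
  (hU : ∀ x ∈ U, ∀ y, φ (x * y) = φ y)
  (hφ : ∀ (ℓ : ℕ) [Fact ℓ.Prime] (y : GK K),
    cyc K ℓ ℚ_[ℓ] y ^ u * ((V ℓ y).trace - (W ℓ y).trace) = (φ y : ℚ_[ℓ]))
  {P : Ideal (OO K)} (hP : P.IsMaximal) {q : ℕ} {w : ℤ} (hw : w = 2 * u ∨ ∀ y, φ y = 0)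
  (hw0 : 0 ≤ w)

include hUn hUo hU hφ hP hw hw0 in
/-- **Transfer of the characteristic polynomials.** -/
theorem transfer_int (hW : IntChar W P q) : IntChar V P q := by
  classical
  intro a ha h hh
  obtain ⟨ℓ₀, hℓ₀, hℓ₀P⟩ := Pool.Agent.R401.Tr6.exists_prime_not_mem hP
  have : Fact ℓ₀.Prime := ⟨hℓ₀⟩
  obtain ⟨f, hf⟩ := hW a ha h hh
  -- the traces of the powers
  have hhk : ∀ k, FrobAt (q ^ (a * k)) P (h ^ k)⁻¹ := by
    intro k
    rw [← inv_pow, pow_mul]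
    exact frobAt_pow hh k
  set t : ℕ → ℚ := fun k => match k with
    | 0 => 0
    | k + 1 => tn (fun i => ((f.map (Int.castRingHom ℚ)).coeff (revAt m i))) k +
        ((q : ℚ) ^ (a * (k + 1))) ^ u * φ (h ^ (k + 1)) with ht
  have htr : ∀ (ℓ : ℕ) [Fact ℓ.Prime], (ℓ : OO K) ∉ P → ∀ k,
      ((V ℓ h) ^ (k + 1)).trace = (t (k + 1) : ℚ_[ℓ]) := by
    intro ℓ _ hℓP k
    rw [← map_pow, tr_eq (V ℓ) (W ℓ) u φ (hφ ℓ), ch_frob u hP hℓP (hhk (k + 1)), map_pow,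
      trace_int (hf ℓ hℓP) k]
    simp only [ht]
    push_cast
    rfl
  have hcoef := rat_char (P := P) (fun ℓ _ => V ℓ h) t htr
  -- integrality
  obtain ⟨g, hg, hg0⟩ : ∃ g : ℤ[X], g.Monic ∧ aeval (V ℓ₀ h) g = 0 := by
    have hfm : ∀ {r : ℕ} {B : Matrix (Fin r) (Fin r) ℚ_[ℓ₀]} {f : ℤ[X]},
        B.charpoly = f.map (Int.castRingHom ℚ_[ℓ₀]) → f.Monic := by
      intro r B f h1
      apply Polynomial.monic_of_injective (f := Int.castRingHom ℚ_[ℓ₀]) Int.cast_injective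
      rw [← h1]
      exact Matrix.charpoly_monic _
    have hcay : ∀ {r : ℕ} {B : Matrix (Fin r) (Fin r) ℚ_[ℓ₀]} {f : ℤ[X]},
        B.charpoly ∣ f.map (Int.castRingHom ℚ_[ℓ₀]) → aeval B f = 0 := by
      rintro r B f ⟨c, hc⟩
      have h1 : aeval B (f.map (Int.castRingHom ℚ_[ℓ₀])) = 0 := by
        rw [hc, map_mul, Matrix.aeval_self_charpoly, zero_mul]
      rw [aeval_def, Polynomial.eval₂_map] at h1
      rw [aeval_def, ← h1]
      congr 1
    by_cases hφ0 : ∀ y, φ y = 0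
    · have hnm : n = m := by
        have h1 := phi_one' (V ℓ₀) (W ℓ₀) u φ (hφ ℓ₀)
        rw [hφ0, Rat.cast_zero] at h1
        have h2 : (n : ℚ_[ℓ₀]) = m := (sub_eq_zero.1 h1.symm)
        exact_mod_cast h2
      subst hnm
      refine ⟨f, hfm (hf ℓ₀ hℓ₀P), hcay ?_⟩
      rw [← hf ℓ₀ hℓ₀P]
      refine dvd_of_eq (Pool.Agent.TH658.Eq.charpoly_eq_of_traces _ _ fun k => ?_)
      rw [← map_pow, ← map_pow, tr_eq (V ℓ₀) (W ℓ₀) u φ (hφ ℓ₀), hφ0, Rat.cast_zero, mul_zero,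
        add_zero]
    · have hw2 : w = 2 * u := hw.resolve_right hφ0
      obtain ⟨v, rfl⟩ : ∃ v : ℕ, u = v := ⟨u.toNat, by omega⟩
      have hfin : Finite (GK K ⧸ U) := Subgroup.quotient_finite_of_isOpen _ hUo
      have hfi : U.FiniteIndex := Subgroup.finiteIndex_of_finite_quotient
      have hM : 0 < U.index := Nat.pos_of_ne_zero hfi.index_ne_zero
      set M := U.index with hMdef
      have hMU : h ^ M ∈ U := Subgroup.pow_index_mem U h
      obtain ⟨f', hf'⟩ := hW (a * M) (Nat.mul_pos ha hM) (h ^ M) (hhk M)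
      set D : ℤ := ((q : ℤ) ^ (a * M)) ^ v with hD
      set A := V ℓ₀ (h ^ M) with hA
      set B := W ℓ₀ (h ^ M) with hB
      have hpow : ∀ k, (A ^ k).trace - (B ^ k).trace = ((D : ℚ_[ℓ₀]) ^ k) * ((n : ℚ_[ℓ₀]) - m) := by
        intro k
        rw [hA, hB, ← map_pow, ← map_pow, tr_eq_on (V ℓ₀) (W ℓ₀) v φ U hU (hφ ℓ₀) _
          (U.pow_mem hMU k), map_pow (ch ℓ₀ (v : ℤ)) (h ^ M) k, ch_frob (v : ℤ) hP hℓ₀P (hhk M), hD]
        push_cast
        rw [zpow_natCast]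
        ring
      have hblock : ∀ (A : Matrix (Fin n) (Fin n) ℚ_[ℓ₀]) (B : Matrix (Fin m) (Fin m) ℚ_[ℓ₀])
          (k : ℕ), ((fromBlocks A 0 0 B) ^ k).trace = (A ^ k).trace + (B ^ k).trace := by
        intro A B k
        rw [fromBlocks_diagonal_pow]
        simp [Matrix.trace, Fintype.sum_sum_type]
      have h1 : (fromBlocks A 0 0 ((D : ℚ_[ℓ₀]) • (1 : Matrix (Fin m) (Fin m) ℚ_[ℓ₀]))).charpoly =
          (fromBlocks ((D : ℚ_[ℓ₀]) • (1 : Matrix (Fin n) (Fin n) ℚ_[ℓ₀])) 0 0 B).charpoly := by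
        apply Pool.Agent.TH658.Eq.charpoly_eq_of_traces
        intro k
        rw [hblock, hblock, _root_.smul_pow, _root_.smul_pow, one_pow, one_pow,
          Matrix.trace_smul, Matrix.trace_smul, Matrix.trace_one, Matrix.trace_one,
          Fintype.card_fin, Fintype.card_fin, smul_eq_mul, smul_eq_mul]
        linear_combination hpow k
      rw [charpoly_fromBlocks_zero₁₂, charpoly_fromBlocks_zero₁₂] at h1
      let G : ℤ[X] := (D • (1 : Matrix (Fin n) (Fin n) ℤ)).charpoly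
      have hG : ((D : ℚ_[ℓ₀]) • (1 : Matrix (Fin n) (Fin n) ℚ_[ℓ₀])).charpoly =
          G.map (Int.castRingHom ℚ_[ℓ₀]) := by
        rw [← Matrix.charpoly_map]
        congr 1
        ext i j
        rw [Matrix.smul_apply, Matrix.map_apply, Matrix.smul_apply, Matrix.one_apply,
          Matrix.one_apply]
        split_ifs
        · simp
        · simp
      have hAdvd : A.charpoly ∣ (G * f').map (Int.castRingHom ℚ_[ℓ₀]) := by
        rw [Polynomial.map_mul, ← hG, ← hf' ℓ₀ hℓ₀P, ← h1]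
        exact dvd_mul_right _ _
      have hmon : (G * f').Monic := (Matrix.charpoly_monic _).mul (hfm (hf' ℓ₀ hℓ₀P))
      refine ⟨(G * f').comp (X ^ M), hmon.comp (monic_X_pow M) ?_, ?_⟩
      · rw [natDegree_X_pow]
        exact hM.ne'
      · rw [Polynomial.aeval_comp, map_pow, aeval_X, ← map_pow]
        exact hcay hAdvd
  have hint : ∀ i, ∃ c : ℤ, (if i ≤ n then cf t (n - i) else 0 : ℚ) = c := by
    intro i
    have h1 := coeff_charpoly_integral (V ℓ₀ h) g hg hg0 i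
    rw [hcoef ℓ₀ hℓ₀P i] at h1
    have h4 : IsIntegral ℤ (if i ≤ n then cf t (n - i) else 0 : ℚ) := by
      have h5 : (((if i ≤ n then cf t (n - i) else 0 : ℚ)) : ℚ_[ℓ₀]) =
          algebraMap ℚ ℚ_[ℓ₀] (if i ≤ n then cf t (n - i) else 0) := by simp
      rw [h5] at h1
      exact (isIntegral_algebraMap_iff (algebraMap ℚ ℚ_[ℓ₀]).injective).1 h1
    obtain ⟨c, hc⟩ := IsIntegrallyClosed.isIntegral_iff.1 h4
    exact ⟨c, hc.symm⟩
  choose c hc using hint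
  refine ⟨∑ i ∈ Finset.range (n + 1), C (c i) * X ^ i, ?_⟩
  intro ℓ _ hℓP
  refine Polynomial.ext fun i => ?_
  rw [hcoef ℓ hℓP i, coeff_map, finsetSum_coeff]
  simp only [coeff_C_mul, coeff_X_pow, mul_ite, mul_one, mul_zero]
  rw [Finset.sum_ite_eq, eq_intCast, hc]
  split_ifs with hk
  · norm_cast
  · rw [Finset.mem_range] at hk
    have h1 := hc i
    rw [if_neg (by omega)] at h1
    have h2 : c i = 0 := by exact_mod_cast h1.symm
    rw [h2]
    norm_cast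

end two

end Pool.Agent.D0H32.EF
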